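import Mathlib

/-!
# Definitions: Tate classes on products of abelian varieties with arbitrary smooth varieties
-/

namespace Pool.Agent.Y137.MV

open NumberField Module IntermediateField

/-- A function on the set of complex embeddings which changes its sign under complex conjugation. -/
def IsOdd {F : Type*} [Field F] (n : (F →+* ℂ) → ℚ) : Prop :=
  ∀ φ, n (ComplexEmbedding.conjugate φ) = -n φ

/-- The odd functions on the set of complex embeddings of `F` form an irreducible rational
representation of the group of automorphisms of the field of complex numbers. -/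
def OddIrreducible (F : Type*) [Field F] : Prop :=
  ∀ W : Submodule ℚ ((F →+* ℂ) → ℚ), (∀ n ∈ W, IsOdd n) →
    (∀ τ : ℂ ≃+* ℂ, ∀ n ∈ W, (fun φ => n ((τ : ℂ →+* ℂ).comp φ)) ∈ W) →
    W = ⊥ ∨ ∀ n, IsOdd n → n ∈ W

/-- There is no nonzero equivariant map from the odd functions on the complex embeddings of `F` to
those on the complex embeddings of `F'`. -/
def Unrelated (F F' : Type*) [Field F] [Field F'] : Prop :=
  ∀ T : ((F →+* ℂ) → ℚ) →ₗ[ℚ] ((F' →+* ℂ) → ℚ),
    (∀ (τ : ℂ ≃+* ℂ) n φ,
      T (fun ψ => n ((τ : ℂ →+* ℂ).comp ψ)) φ = T n ((τ : ℂ →+* ℂ).comp φ)) →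
    (∀ n, IsOdd (T n)) → ∀ n, IsOdd n → T n = 0

/-- The only multiplicative relations between the conjugates of the numbers `π i` and `q` are the
trivial ones, given by `π * conj π = q`: the angle rank is maximal. -/
def MaximalAngleRank {ι : Type*} [Fintype ι] {F : ι → Type*} [∀ i, Field (F i)]
    [∀ i, NumberField (F i)] (q : ℕ) (π : ∀ i, F i) : Prop :=
  ∀ (r : ℤ) (n : (Σ i, (F i →+* ℂ)) → ℤ), ∏ x, (x.2 (π x.1)) ^ n x = (q : ℂ) ^ r →
    ∀ i (φ : F i →+* ℂ), n ⟨i, φ⟩ = n ⟨i, ComplexEmbedding.conjugate φ⟩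

/-- The number `π` (a Weil number for `p ^ a`) is not supersingular: some of its `p`-adic absolute
values is not the square root of the absolute value of `p ^ a`. -/
def HasOtherSlope (p a : ℕ) [Fact p.Prime] {F : Type*} [Field F] (π : F) : Prop :=
  ∃ τ : F →+* PadicAlgCl p, ‖τ π‖ ^ 2 ≠ ‖(p : PadicAlgCl p) ^ a‖

/-- The sum of the absolute values of `log |x| + r` over the `p`-adic roots `x` of `P`. -/
noncomputable def width (p : ℕ) [Fact p.Prime] (P : Polynomial ℚ) (r : ℝ) : ℝ :=
  ((P.aroots (PadicAlgCl p)).map fun x => |Real.log ‖x‖ + r|).sum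

/-- Every complex embedding of `F i` can be exchanged with its complex conjugate by an automorphism
(endomorphism) of the field of complex numbers which fixes all the other embeddings of all the
fields of the family. -/
def HasFlips {ι : Type*} (F : ι → Type*) [∀ i, Field (F i)] (i : ι) : Prop :=
  ∀ φ : F i →+* ℂ, ∃ τ : ℂ →+* ℂ, τ.comp φ = ComplexEmbedding.conjugate φ ∧
    ∀ x : Σ i, (F i →+* ℂ), x ≠ ⟨i, φ⟩ → x ≠ ⟨i, ComplexEmbedding.conjugate φ⟩ →
      τ.comp x.2 = x.2

/-- The eigenvalue `α` is unrelated to the Weil number `π i`, for one of three reasons: its degree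
is too small, some automorphism of the complex numbers fixes it and conjugates the field `F i`, or
its `p`-adic width is too small. -/
def Separated {ι : Type*} {F : ι → Type*} [∀ i, Field (F i)] [∀ i, NumberField (F i)]
    (p a : ℕ) [Fact p.Prime] (π : ∀ i, F i) (α : ℂ) (i : ι) : Prop :=
  (OddIrreducible (F i) ∧ (minpoly ℚ α).natDegree < finrank ℚ (F i)) ∨
    (∀ φ : F i →+* ℂ, ∃ τ : ℂ →+* ℂ, τ α = α ∧ τ.comp φ = ComplexEmbedding.conjugate φ) ∨
    (HasFlips F i ∧ width p (minpoly ℚ α) (Real.log ‖α‖) <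
      width p (minpoly ℚ (π i)) (a * Real.log p / 2))

section classes

variable {k : Type*} [Field k] {V : Type*} [AddCommGroup V] [Module k V]
  {M : Type*} [AddCommGroup M] [Module k M] {Γ : Type*} [Group Γ]

/-- Every subspace which is stable under a subgroup of finite index has a complement which is
stable under this subgroup. -/
def FiniteIndexSemisimple (ρ : Representation k Γ V) : Prop :=
  ∀ Δ : Subgroup Γ, Δ.FiniteIndex → ∀ U : Submodule k V, (∀ s ∈ Δ, ∀ u ∈ U, ρ s u ∈ U) →
    ∃ U' : Submodule k V, IsCompl U U' ∧ ∀ s ∈ Δ, ∀ u ∈ U', ρ s u ∈ U'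

/-- The alternating map `f` on `V ^ n` with values in `M` is equivariant under some subgroup of
finite index. -/
def IsEquivariant (ρ : Representation k Γ V) (τ : Representation k Γ M) {κ : Type} {n : ℕ}
    (f : (Fin n → V) [⋀^κ]→ₗ[k] M) : Prop :=
  ∃ Δ : Subgroup Γ, Δ.FiniteIndex ∧ ∀ s ∈ Δ, ∀ v : κ → Fin n → V,
    f (fun l i => ρ s (v l i)) = τ s (f v)

/-- A subgroup of finite index acts on the alternating form `B` on `V ^ n` through the character
`χ`. -/
def IsTateForm (ρ : Representation k Γ V) (χ : Γ →* k) {n : ℕ}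
    (B : (Fin n → V) [⋀^Fin 2]→ₗ[k] k) : Prop :=
  ∃ Δ : Subgroup Γ, Δ.FiniteIndex ∧ ∀ s ∈ Δ, ∀ v : Fin 2 → Fin n → V,
    B (fun ε i => ρ s (v ε i)) = χ s * B v

/-- A subgroup of finite index acts on the vector `w` through the `m`-th power of `χ`. -/
def IsTateVector (τ : Representation k Γ M) (χ : Γ →* k) (m : ℕ) (w : M) : Prop :=
  ∃ Δ : Subgroup Γ, Δ.FiniteIndex ∧ ∀ s ∈ Δ, τ s w = χ s ^ m • w

/-- The product `B 0 ∧ ... ∧ B (m - 1) ⊗ w` of `m` alternating forms on which a subgroup of finite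
index acts through `χ` and of a vector on which a subgroup of finite index acts through `χ ^ m`. -/
def IsProduct (ρ : Representation k Γ V) (χ : Γ →* k) (τ : Representation k Γ M) {n m : ℕ}
    (g : (Fin n → V) [⋀^Fin m × Fin 2]→ₗ[k] M) : Prop :=
  ∃ (B : Fin m → (Fin n → V) [⋀^Fin 2]→ₗ[k] k) (w : M),
    (∀ l, IsTateForm ρ χ (B l)) ∧ IsTateVector τ χ m w ∧
    ∀ v, g v = (∑ σ : Equiv.Perm (Fin m × Fin 2), ((Equiv.Perm.sign σ : ℤ) : k) *
      ∏ l, B l ![v (σ (l, 0)), v (σ (l, 1))]) • w

end classes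

end Pool.Agent.Y137.MV
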