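import Mathlib
import Pool.Agent.H204R3.SP.Descent
import Pool.Agent.Y137.MV.Killed

/-!
# The Lie algebra that kills all scalar components of equivariant multilinear maps
-/

set_option linter.unusedSectionVars false

namespace Pool.Agent.Y137.MV

open Module TensorProduct Pool.Agent.H204R3.CM Pool.Agent.H204R3.SP Pool.Agent.H204R3.GP

noncomputable section

section kill

variable {Ω : Type*} [Field Ω] {V : Type*} [AddCommGroup V] [Module Ω V]
  {κ : Type*} [Fintype κ] [DecidableEq κ] {φ : MultilinearMap Ω (fun _ : κ => V) Ω}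

theorem kills_zero : Kills (0 : Module.End Ω V) φ := by
  intro v
  refine Finset.sum_eq_zero fun k _ => ?_
  rw [LinearMap.zero_apply]
  exact φ.map_coord_zero k (Function.update_self _ _ _)

theorem kills_add {X Y : Module.End Ω V} (hX : Kills X φ) (hY : Kills Y φ) :
    Kills (X + Y) φ := by
  intro v
  have h3 := congrArg₂ (fun x y : Ω => x + y) (hX v) (hY v)
  simp only [add_zero] at h3
  rw [← h3, ← Finset.sum_add_distrib]
  refine Finset.sum_congr rfl fun k _ => ?_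
  rw [LinearMap.add_apply, MultilinearMap.map_update_add]

theorem kills_smul (c : Ω) {X : Module.End Ω V} (hX : Kills X φ) : Kills (c • X) φ := by
  intro v
  rw [← mul_zero c, ← hX v, Finset.mul_sum]
  refine Finset.sum_congr rfl fun k _ => ?_
  rw [LinearMap.smul_apply, MultilinearMap.map_update_smul, smul_eq_mul]

/-- The conjugate of `X` kills `φ` if `X` kills the pull-back of `φ`. -/
theorem kills_conj {Γ : Type*} [Group Γ] (ρ : Representation Ω Γ V) (s : Γ) {X : Module.End Ω V}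
    (h : Kills X (φ.compLinearMap (fun _ => ρ s))) : Kills (ρ s * X * ρ s⁻¹) φ := by
  intro v
  have h1 := h (fun k => ρ s⁻¹ (v k))
  rw [← h1]
  refine Finset.sum_congr rfl fun k _ => ?_
  change _ = φ (fun l => ρ s (Function.update (fun k => ρ s⁻¹ (v k)) k (X (ρ s⁻¹ (v k))) l))
  congr 1
  funext l
  by_cases h : l = k
  · subst h
    rw [Function.update_self, Function.update_self]
    rfl
  · rw [Function.update_of_ne h, Function.update_of_ne h, rho_inv']

end kill

variable {k Ω : Type*} [Field k] [Field Ω] [Algebra k Ω] {V : Type*} [AddCommGroup V] [Module k V]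
  {ν : Type*} [Fintype ν] [DecidableEq ν] (b : Basis ν k V)
  {Γ : Type*} [Group Γ] (ρ : Representation k Γ V) (χ : Γ →* k)
  {M : Type*} [AddCommGroup M] [Module k M] (σ : Representation k Γ M)

/-- A multilinear map which is equivariant under a subgroup of finite index. -/
def IsEqv {κ : Type*} (φ : MultilinearMap k (fun _ : κ => V) M) : Prop :=
  ∃ Δ : Subgroup Γ, Δ.FiniteIndex ∧ ∀ s ∈ Δ, ∀ v, φ (fun l => ρ s (v l)) = σ s (φ v)

theorem bcm_comp {κ : Type*} [Fintype κ] [DecidableEq κ]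
    (φ : MultilinearMap k (fun _ : κ => V) k) (s : Γ) :
    (bcm (Ω := Ω) b φ).compLinearMap (fun _ => bcr ρ Ω s) =
      bcm (Ω := Ω) b (φ.compLinearMap (fun _ => ρ s)) := by
  refine Basis.ext_multilinear (fun _ => b.baseChange Ω) fun I => ?_
  change (bcm (Ω := Ω) b φ) (fun l => bcr ρ Ω s (b.baseChange Ω (I l))) = _
  rw [bcm_basis]
  have h2 : ∀ l, bcr ρ Ω s (b.baseChange Ω (I l)) = (1 : Ω) ⊗ₜ[k] ρ s (b (I l)) := by
    intro l
    rw [Basis.baseChange_apply, bcr_tmul]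
  simp only [h2]
  rw [bcm_one]
  rfl

/-- The pull-back of a scalar component of an equivariant map is a scalar component of another one. -/
theorem eqv_pull {κ : Type*} {φ : MultilinearMap k (fun _ : κ => V) M} (hφ : IsEqv ρ σ φ)
    (s : Γ) : IsEqv ρ σ ((σ s⁻¹).compMultilinearMap (φ.compLinearMap (fun _ => ρ s))) := by
  obtain ⟨Δ, hΔ, hφ⟩ := hφ
  refine ⟨Δ.comap (MulAut.conj s).toMonoidHom, ⟨by
    rw [Subgroup.index_comap_of_surjective _ (MulAut.conj s).surjective]
    exact hΔ.index_ne_zero⟩, fun t ht v => ?_⟩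
  have h1 : s * t * s⁻¹ ∈ Δ := by
    rw [Subgroup.mem_comap] at ht
    exact ht
  have h2 := hφ _ h1 (fun k => ρ s (v k))
  change σ s⁻¹ (φ (fun k => ρ s (ρ t (v k)))) = σ t (σ s⁻¹ (φ (fun k => ρ s (v k))))
  have h3 : ∀ k, ρ (s * t * s⁻¹) (ρ s (v k)) = ρ s (ρ t (v k)) := by
    intro k
    rw [map_mul, map_mul, Module.End.mul_apply, Module.End.mul_apply, rho_inv]
  simp only [h3] at h2
  rw [h2, ← Module.End.mul_apply, ← map_mul, ← Module.End.mul_apply, ← map_mul]
  congr 2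
  group

/-- The endomorphisms that kill all Tate forms and all scalar components of equivariant maps. -/
def lieM (Ω : Type*) [Field Ω] [Algebra k Ω] : Submodule Ω (Module.End Ω (Ω ⊗[k] V)) where
  carrier := {X | X ∈ lieT (bcr ρ Ω) (bcc χ Ω) ∧ ∀ (κ : Type) [Fintype κ] [DecidableEq κ]
    (φ : MultilinearMap k (fun _ : κ => V) M) (l : M →ₗ[k] k), IsEqv ρ σ φ →
      Kills X (bcm (Ω := Ω) b (l.compMultilinearMap φ))}
  zero_mem' := ⟨Submodule.zero_mem _, fun κ _ _ φ l _ => kills_zero⟩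
  add_mem' := fun hX hY => ⟨Submodule.add_mem _ hX.1 hY.1,
    fun κ _ _ φ l h => kills_add (hX.2 κ φ l h) (hY.2 κ φ l h)⟩
  smul_mem' := fun c _ hX => ⟨Submodule.smul_mem _ c hX.1,
    fun κ _ _ φ l h => kills_smul c (hX.2 κ φ l h)⟩

theorem lieM_bracket {X Y : Module.End Ω (Ω ⊗[k] V)} (hX : X ∈ lieM b ρ χ σ Ω)
    (hY : Y ∈ lieM b ρ χ σ Ω) : X * Y - Y * X ∈ lieM b ρ χ σ Ω :=
  ⟨lieT_bracket _ _ hX.1 hY.1, fun κ _ _ φ l h => kills_bracket (hX.2 κ φ l h) (hY.2 κ φ l h)⟩

theorem lieM_conj (s : Γ) {X : Module.End Ω (Ω ⊗[k] V)} (hX : X ∈ lieM b ρ χ σ Ω) :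
    bcr ρ Ω s * X * bcr ρ Ω s⁻¹ ∈ lieM b ρ χ σ Ω := by
  refine ⟨lieT_conj _ _ s hX.1, fun κ _ _ φ l h => kills_conj (bcr ρ Ω) s ?_⟩
  rw [bcm_comp]
  have h1 := hX.2 κ _ (l.comp (σ s)) (eqv_pull ρ σ h s)
  convert! h1 using 2
  ext v
  change l (φ (fun k => ρ s (v k))) = l (σ s (σ s⁻¹ (φ (fun k => ρ s (v k)))))
  rw [← Module.End.mul_apply, ← map_mul, mul_inv_cancel, map_one]
  rfl

end

end Pool.Agent.Y137.MV
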