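import Mathlib
import Pool.Agent.Y137.MV.LieM

/-!
# Coefficients of equivariant maps and roots of polynomials which kill the Frobenius element
-/

set_option linter.unusedSectionVars false

namespace Pool.Agent.Y137.MV

open Module TensorProduct Pool.Agent.H204R3.CM Pool.Agent.H204R3.SP Pool.Agent.H204R3.GP
open Polynomial

noncomputable section

variable {k Ω : Type*} [Field k] [Field Ω] [Algebra k Ω] {V : Type*} [AddCommGroup V] [Module k V]
  {ν : Type*} [Fintype ν] [DecidableEq ν] (b : Basis ν k V)
  {Γ : Type*} [Group Γ] (ρ : Representation k Γ V) (χ : Γ →* k)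
  {M : Type*} [AddCommGroup M] [Module k M] (σ : Representation k Γ M)

theorem bcm_add {κ : Type*} [Fintype κ] [DecidableEq κ]
    (φ ψ : MultilinearMap k (fun _ : κ => V) k) :
    bcm (Ω := Ω) b (φ + ψ) = bcm b φ + bcm b ψ := by
  refine Basis.ext_multilinear (fun _ => b.baseChange Ω) fun I => ?_
  rw [add_apply, bcm_basis, bcm_basis, bcm_basis, add_apply, map_add]

theorem bcm_smul {κ : Type*} [Fintype κ] [DecidableEq κ]
    (c : k) (φ : MultilinearMap k (fun _ : κ => V) k) :
    bcm (Ω := Ω) b (c • φ) = algebraMap k Ω c • bcm b φ := by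
  refine Basis.ext_multilinear (fun _ => b.baseChange Ω) fun I => ?_
  rw [smul_apply, bcm_basis, bcm_basis, smul_apply, smul_eq_mul,
    map_mul, smul_eq_mul]

/-- The coefficient of an `M`-valued map, as a functional on the dual space of `M`. -/
def coefM {κ : Type*} [Fintype κ] [DecidableEq κ]
    (φ : MultilinearMap k (fun _ : κ => V) M) (u : κ → Ω ⊗[k] V) : Dual k M →ₗ[k] Ω where
  toFun l := bcm (Ω := Ω) b (l.compMultilinearMap φ) u
  map_add' l l' := by
    rw [← add_apply, ← bcm_add]
    congr 2
  map_smul' c l := by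
    have h : (c • l).compMultilinearMap φ = c • l.compMultilinearMap φ := by
      ext v
      rfl
    rw [h, bcm_smul, smul_apply, RingHom.id_apply, algebraMap_smul]

/-- Precomposition with the transpose. -/
def pre (Ω : Type*) [Field Ω] [Algebra k Ω] (S : Module.End k M) :
    Module.End Ω (Dual k M →ₗ[k] Ω) where
  toFun c := c.comp S.dualMap
  map_add' _ _ := rfl
  map_smul' _ _ := rfl

theorem pre_aeval (S : Module.End k M) (f : k[X]) (c : Dual k M →ₗ[k] Ω) (l : Dual k M) :
    (aeval (pre Ω S) (f.map (algebraMap k Ω)) c) l = c (l.comp (aeval S f)) := by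
  induction f using Polynomial.induction_on' with
  | add p q hp hq =>
    rw [Polynomial.map_add, map_add, LinearMap.add_apply, LinearMap.add_apply, hp, hq, map_add,
      LinearMap.comp_add, map_add]
  | monomial n a =>
    rw [Polynomial.map_monomial, aeval_monomial, aeval_monomial]
    have h1 : ∀ n : ℕ, ∀ l : Dual k M, ((pre Ω S ^ n) c) l = c (l.comp (S ^ n)) := by
      intro n
      induction n with
      | zero => intro l; rfl
      | succ n ih =>
        intro l
        rw [pow_succ', Module.End.mul_apply, pow_succ']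
        change ((pre Ω S ^ n) c) (S.dualMap l) = _
        rw [ih]
        rfl
    rw [Module.End.mul_apply, Module.algebraMap_end_apply, LinearMap.smul_apply, h1]
    have h2 : l.comp ((algebraMap k (Module.End k M)) a * S ^ n) = a • l.comp (S ^ n) := by
      ext x
      rw [LinearMap.comp_apply, Module.End.mul_apply, Module.algebraMap_end_apply, map_smul]
      rfl
    rw [h2, map_smul, algebraMap_smul]

/-- The coefficient vanishes unless `X ^ N - P` has a root in common with every polynomial that
kills the Frobenius element. -/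
theorem not_coprime {κ : Type*} [Fintype κ] [DecidableEq κ]
    (φ : MultilinearMap k (fun _ : κ => V) M) {s : Γ} {N : ℕ}
    (hs : ∀ v, φ (fun l => ρ (s ^ N) (v l)) = σ (s ^ N) (φ v))
    (u : κ → Ω ⊗[k] V) (P : Ω)
    (hu : ∀ ψ : MultilinearMap Ω (fun _ : κ => Ω ⊗[k] V) Ω,
      ψ (fun l => bcr ρ Ω (s ^ N) (u l)) = P * ψ u)
    (f : k[X]) (hf : aeval (σ s) f = 0) (l : M →ₗ[k] k)
    (h0 : bcm (Ω := Ω) b (l.compMultilinearMap φ) u ≠ 0) :
    ¬ IsCoprime ((X : Polynomial Ω) ^ N - C P) (f.map (algebraMap k Ω)) := by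
  rintro ⟨a, c, hac⟩
  apply h0
  have hc1 : aeval (pre Ω (σ s)) (f.map (algebraMap k Ω)) (coefM b φ u) = 0 := by
    refine LinearMap.ext fun l => ?_
    rw [pre_aeval, hf, LinearMap.comp_zero, map_zero]
    rfl
  have hc2 : aeval (pre Ω (σ s)) ((X : Polynomial Ω) ^ N - C P) (coefM b φ u) = 0 := by
    refine LinearMap.ext fun l => ?_
    have h1 := pre_aeval (Ω := Ω) (σ s) ((X : k[X]) ^ N) (coefM b φ u) l
    rw [Polynomial.map_pow, Polynomial.map_X] at h1
    rw [map_sub, LinearMap.sub_apply, LinearMap.sub_apply, h1, aeval_C,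
      Module.algebraMap_end_apply, LinearMap.smul_apply, smul_eq_mul, map_pow, aeval_X, ← map_pow]
    have h2 : (l.comp (σ (s ^ N))).compMultilinearMap φ =
        (l.compMultilinearMap φ).compLinearMap (fun _ => ρ (s ^ N)) := by
      ext v
      change l (σ (s ^ N) (φ v)) = l (φ (fun k => ρ (s ^ N) (v k)))
      rw [hs]
    change bcm (Ω := Ω) b ((l.comp (σ (s ^ N))).compMultilinearMap φ) u -
      P * bcm (Ω := Ω) b (l.compMultilinearMap φ) u = 0
    rw [h2, ← bcm_comp, sub_eq_zero]
    exact hu _
  have h1 := congrArg (fun q => (aeval (pre Ω (σ s)) q) (coefM b φ u)) hac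
  simp only [map_add, map_mul, LinearMap.add_apply, Module.End.mul_apply, hc1, hc2, map_zero,
    add_zero, map_one, Module.End.one_apply] at h1
  exact (congrArg (fun F : Dual k M →ₗ[k] Ω => F l) h1).symm

/-- The common root, in the field of complex numbers. -/
theorem exists_root [CharZero k] {L : Type*} [Field L] [CharZero L] [CharZero Ω] (j : L →+* ℂ)
    (jΩ : L →+* Ω) (P : L) (N : ℕ) (f : ℚ[X])
    (h : ¬ IsCoprime ((X : Polynomial Ω) ^ N - C (jΩ P))
      ((f.map (algebraMap ℚ k)).map (algebraMap k Ω))) :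
    ∃ α : ℂ, aeval α f = 0 ∧ α ^ N = j P := by
  have h1 : ((X : Polynomial Ω) ^ N - C (jΩ P)) = ((X : Polynomial L) ^ N - C P).map jΩ := by
    rw [Polynomial.map_sub, Polynomial.map_pow, Polynomial.map_X, Polynomial.map_C]
  have h2 : (f.map (algebraMap ℚ k)).map (algebraMap k Ω) = (f.map (algebraMap ℚ L)).map jΩ := by
    rw [Polynomial.map_map, Polynomial.map_map]
    congr 1
    exact Subsingleton.elim _ _
  rw [h1, h2, Polynomial.isCoprime_map, ← Polynomial.isCoprime_map j,
    Polynomial.isCoprime_iff_aeval_ne_zero_of_isAlgClosed ℂ ℂ] at h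
  push Not at h
  obtain ⟨α, h3, h4⟩ := h
  refine ⟨α, ?_, ?_⟩
  · rw [Polynomial.map_map] at h4
    rw [← h4]
    have h5 : j.comp (algebraMap ℚ L) = algebraMap ℚ ℂ := Subsingleton.elim _ _
    rw [h5, Polynomial.aeval_map_algebraMap]
  · rw [Polynomial.map_sub, Polynomial.map_pow, Polynomial.map_X, Polynomial.map_C, map_sub,
      map_pow, aeval_X, aeval_C, sub_eq_zero] at h3
    exact h3

end

end Pool.Agent.Y137.MV
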