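import Mathlib
import Pool.Agent.H204R3.GP.Neat
import Pool.Agent.Y137.MV.Root

/-!
# Equivariant maps with values in a representation, and one Frobenius element
-/

set_option linter.unusedSectionVars false

namespace Pool.Agent.Y137.MV

open NumberField Module TensorProduct IntermediateField
open Pool.Agent.H204R3.CM Pool.Agent.H204R3.SP Pool.Agent.H204R3.GP

noncomputable section

/-- If a power of `β` is the product of the powers of the values of a family of embeddings, the
family is balanced over `F i`. -/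
def Forces {ι : Type*} {F : ι → Type*} [∀ i, Field (F i)] [∀ i, NumberField (F i)]
    [∀ i, IsCMField (F i)] (π : ∀ i, F i) {L : Type*} [Field L] [NumberField L] (β : L)
    (i : ι) : Prop := by
  classical
  exact ∀ (K N : ℕ) (I : Fin K → (Σ i, (F i →+* L))), 0 < N →
    β ^ N = ∏ l, (val π (I l)) ^ N → ∀ φ : F i →+* L,
      (Finset.univ.filter (fun l => I l = ⟨i, φ⟩)).card =
        (Finset.univ.filter (fun l => I l = bar ⟨i, φ⟩)).card

theorem Forces.balanced {ι : Type*} {F : ι → Type*} [∀ i, Field (F i)] [∀ i, NumberField (F i)]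
    [∀ i, IsCMField (F i)] {π : ∀ i, F i} {L : Type*} [Field L] [NumberField L] {β : L}
    (h : ∀ i, Forces π β i) {κ : Type*} [Fintype κ] (I : κ → (Σ i, (F i →+* L))) {N : ℕ}
    (hN : 0 < N) (hβN : β ^ N = ∏ l, (val π (I l)) ^ N) [DecidableEq (Σ i, (F i →+* L))]
    (y : Σ i, (F i →+* L)) :
    (Finset.univ.filter (fun l => I l = y)).card =
      (Finset.univ.filter (fun l => I l = bar y)).card := by
  let E : κ ≃ Fin (Fintype.card κ) := Fintype.equivFin κ
  have h1 := h y.1 (Fintype.card κ) N (fun l => I (E.symm l)) hN (by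
    rw [hβN]
    exact Fintype.prod_equiv E _ _ fun l => by rw [Equiv.symm_apply_apply]) y.2
  have h2 : ∀ z, (Finset.univ.filter (fun l => I l = z)).card =
      (Finset.univ.filter (fun l => I (E.symm l) = z)).card := by
    intro z
    refine Finset.card_bij (fun l _ => E l) (fun l hl => ?_) (fun l _ l' _ h => E.injective h)
      (fun l hl => ⟨E.symm l, ?_, E.apply_symm_apply l⟩)
    · rw [Finset.mem_filter] at hl ⊢
      exact ⟨Finset.mem_univ _, by rw [Equiv.symm_apply_apply]; exact hl.2⟩
    · rw [Finset.mem_filter] at hl ⊢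
      exact ⟨Finset.mem_univ _, hl.2⟩
  rw [h2, h2]
  convert! h1

section setup

variable {k : Type*} [Field k] [CharZero k] {V : Type*} [AddCommGroup V]
    [Module k V] [FiniteDimensional k V]
    {p : ℕ} [Fact p.Prime] {a : ℕ}
    {ι : Type*} [Fintype ι] {F : ι → Type*} [∀ i, Field (F i)] [∀ i, NumberField (F i)]
    [∀ i, IsCMField (F i)] {π : ∀ i, F i}
    {L : Type*} [Field L] [NumberField L] [IsGalois ℚ L]
    {Γ : Type*} [Group Γ] (ρ : Representation k Γ V) (χ : Γ →* k)

theorem exists_setup (hgen : ∀ i, ℚ⟮π i⟯ = ⊤)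
    (hw : ∀ i, π i * IsCMField.complexConj (F i) (π i) = (p : F i) ^ a)
    (j : L →+* ℂ)
    (h : ∀ i, ∀ ψ : F i →+* ℂ, ∃ φ : F i →+* L, j.comp φ = ψ) (hneat : Neat p a π L)
    (ω : V →ₗ[k] V →ₗ[k] k) (halt : ∀ v, ω v v = 0) (hnd : ∀ u, (∀ v, ω v u = 0) → u = 0)
    (hωρ : ∀ s u v, ω (ρ s u) (ρ s v) = χ s * ω u v)
    (γ : Γ) (hχ : χ γ = (p : k) ^ a)
    (hγ : (ρ γ).charpoly = ∏ i, (minpoly ℚ (π i)).map (algebraMap ℚ k))
    [DecidableEq (Σ i, (F i →+* L))] :
    ∃ (Ω : IntermediateField k (AlgebraicClosure k)) (_ : FiniteDimensional k Ω)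
      (jΩ : L →+* Ω) (e : Basis (Σ i, (F i →+* L)) Ω (Ω ⊗[k] V))
      (jj : (Σ i, (F i →+* L)) → Ω),
      (∀ x, bcr ρ Ω γ (e x) = jΩ (val π x) • e x) ∧ (∀ x, jj (bar x) = -jj x) ∧
      (∀ x, jj x ≠ 0) ∧ ∀ x y, bcb Ω ω (e x) (e y) = JJ bar jj x y := by
  classical
  obtain ⟨Ω, hΩ, ⟨jΩ⟩⟩ := exists_finite_ext k L
  have hinjv := val_inj_of_neat hw hneat
  have hcardE : ∀ i, Fintype.card (F i →+* L) = finrank ℚ (F i) := fun i => card_emb j (h i)
  have hanti : ∀ u v, ω u v = -ω v u := by
    intro u v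
    have h1 := halt (u + v)
    simp only [map_add, LinearMap.add_apply, halt, zero_add, add_zero] at h1
    exact eq_neg_of_add_eq_zero_left (by rw [← h1]; ring)
  have hnd' : ∀ u, (∀ v, ω u v = 0) → u = 0 := by
    intro u hu
    apply hnd
    intro v
    rw [hanti, hu, neg_zero]
  let b := Module.finBasis k V
  have hTchar : (bcr ρ Ω γ).charpoly = ∏ i, (minpoly ℚ (π i)).map (algebraMap ℚ Ω) := by
    change ((ρ γ).baseChange Ω).charpoly = _
    rw [LinearMap.charpoly_baseChange, hγ, Polynomial.map_prod]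
    refine Finset.prod_congr rfl fun i _ => ?_
    rw [Polynomial.map_map]
    congr 1
  obtain ⟨e, he⟩ := exists_eigenbasisG (Ω := Ω) (L := L) hgen jΩ hcardE hinjv
    (bcr ρ Ω γ) hTchar
  have hantiΩ : ∀ u v, bcb Ω ω u v = -bcb Ω ω v u := by
    have h1 : bcb Ω ω = -(bcb Ω ω).flip := by
      refine (b.baseChange Ω).ext fun i => (b.baseChange Ω).ext fun l => ?_
      rw [LinearMap.neg_apply, LinearMap.neg_apply, LinearMap.flip_apply, Basis.baseChange_apply,
        Basis.baseChange_apply, bcb_one, bcb_one, hanti, map_neg]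
    intro u v
    exact congrArg (fun F : (Ω ⊗[k] V) →ₗ[Ω] (Ω ⊗[k] V) →ₗ[Ω] Ω => F u v) h1
  have hq : ∀ x y : Σ i, (F i →+* L), y ≠ bar x → bcb Ω ω (e x) (e y) = 0 := by
    intro x y hxy
    by_contra h0
    apply hxy
    have h1 := bcb_inv ρ χ (Ω := Ω) ω hωρ γ (e x) (e y)
    rw [he, he, map_smul, map_smul, LinearMap.smul_apply, smul_eq_mul, smul_eq_mul, bcc_apply, hχ,
      ← mul_assoc] at h1
    have h2 := mul_right_cancel₀ h0 h1
    have h3 : jΩ (val π y * val π x) = jΩ ((p : L) ^ a) := by
      simp only [map_mul, map_pow, map_natCast] at h2 ⊢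
      exact h2
    have h4 := jΩ.injective h3
    have h5 := val_bar (L := L) hw x
    have hx0 : val π x ≠ 0 := by
      intro h6
      rw [h6, zero_mul] at h5
      exact pow_ne_zero a (Nat.cast_ne_zero.2 (Fact.out : p.Prime).ne_zero) h5.symm
    apply hinjv
    apply mul_left_cancel₀ hx0
    rw [h5, mul_comm, h4]
  let jj : (Σ i, (F i →+* L)) → Ω := fun x => bcb Ω ω (e x) (e (bar x))
  have hjj : ∀ x, jj (bar x) = -jj x := by
    intro x
    simp only [jj, bar_bar]
    exact hantiΩ _ _
  have hj0 : ∀ x, jj x ≠ 0 := by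
    intro x h0
    apply e.ne_zero (bar x)
    apply bcb_nondeg b ω hnd hnd'
    have h1 : (bcb Ω ω).flip (e (bar x)) = 0 := by
      refine e.ext fun y => ?_
      rw [LinearMap.flip_apply, LinearMap.zero_apply]
      by_cases hy : bar x = bar y
      · have h2 : y = x := by rw [← bar_bar y, ← hy, bar_bar]
        rw [h2]
        exact h0
      · exact hq _ _ hy
    intro v
    exact congrArg (fun F : (Ω ⊗[k] V) →ₗ[Ω] Ω => F v) h1
  have hω : ∀ x y, bcb Ω ω (e x) (e y) = JJ bar jj x y := by
    intro x y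
    unfold JJ
    by_cases hy : y = bar x
    · rw [if_pos hy, hy]
    · rw [if_neg hy, hq x y hy]
  exact ⟨Ω, hΩ, jΩ, e, jj, he, hjj, hj0, hω⟩

/-- If the product of the values is, up to a power, fixed by an automorphism which conjugates
an embedding, the conjugates are balanced there. -/
theorem balanced_of_aut (hw : ∀ i, π i * IsCMField.complexConj (F i) (π i) = (p : F i) ^ a)
    (hneat : Neat p a π L)
    {κ : Type*} [Fintype κ] (I : κ → (Σ i, (F i →+* L))) {N : ℕ} (hN : 0 < N)
    {β : L} (hβN : β ^ N = ∏ l, (val π (I l)) ^ N) [DecidableEq (Σ i, (F i →+* L))]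
    (y : Σ i, (F i →+* L)) (σ : L ≃ₐ[ℚ] L) (hσ1 : σ β = β) (hy : σ • y = bar y) :
    (Finset.univ.filter (fun l => I l = y)).card =
      (Finset.univ.filter (fun l => I l = bar y)).card := by
  -- `σ` fixes the product
  have hP : σ (∏ l, (val π (I l)) ^ N) = ∏ l, (val π (I l)) ^ N := by
    rw [← hβN, map_pow, hσ1]
  let E : κ ≃ Fin (Fintype.card κ) := Fintype.equivFin κ
  let I' : Fin (Fintype.card κ) × Fin 2 → (Σ i, (F i →+* L)) := fun l =>
    if l.2 = 0 then σ • I (E.symm l.1) else bar (I (E.symm l.1))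
  have hcount : ∀ z, (Finset.univ.filter (fun l => I' l = z)).card =
      (Finset.univ.filter (fun l => σ • I l = z)).card +
      (Finset.univ.filter (fun l => bar (I l) = z)).card := by
    intro z
    rw [Finset.card_filter, Fintype.sum_prod_type, Finset.card_filter, Finset.card_filter,
      ← Finset.sum_add_distrib]
    refine Fintype.sum_equiv E.symm _ _ fun l => ?_
    rw [Fin.sum_univ_two]
    simp [I']
  have h1 : (Finset.univ.filter (fun l => I' l = σ • y)).card =
      (Finset.univ.filter (fun l => I' l = bar (σ • y))).card := by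
    convert! hneat (Fintype.card κ) N hN I' (by
      rw [Fintype.prod_prod_type]
      have h2 : ∀ l : Fin (Fintype.card κ), ∏ ε, (val π (I' (l, ε))) ^ N =
          σ ((val π (I (E.symm l))) ^ N) * (val π (bar (I (E.symm l)))) ^ N := by
        intro l
        rw [Fin.prod_univ_two, map_pow]
        rfl
      rw [Finset.prod_congr rfl (fun l _ => h2 l), Finset.prod_mul_distrib]
      have h3 : ∏ l : Fin (Fintype.card κ), σ ((val π (I (E.symm l))) ^ N) =
          ∏ l, (val π (I l)) ^ N := by
        rw [← hP, map_prod]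
        exact Fintype.prod_equiv E.symm _ _ fun l => rfl
      have h4 : ∏ l : Fin (Fintype.card κ), (val π (bar (I (E.symm l)))) ^ N =
          ∏ l, (val π (bar (I l))) ^ N := Fintype.prod_equiv E.symm _ _ fun l => rfl
      rw [h3, h4, ← Finset.prod_mul_distrib]
      have h5 : ∀ l, (val π (I l)) ^ N * (val π (bar (I l))) ^ N = ((p : L) ^ a) ^ N := by
        intro l
        rw [← mul_pow, val_bar hw]
      rw [Finset.prod_congr rfl (fun l _ => h5 l), Finset.prod_const, Finset.card_univ, ← pow_mul,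
        ← pow_mul, ← pow_mul]
      congr 1
      ring) (σ • y)
  have hcl : ∀ z, (Finset.univ.filter (fun l => σ • I l = σ • z)).card =
      (Finset.univ.filter (fun l => I l = z)).card := by
    intro z
    congr 1
    ext l
    simp only [Finset.mem_filter, Finset.mem_univ, true_and, smul_left_cancel_iff]
  have hcb : ∀ z, (Finset.univ.filter (fun l => bar (I l) = bar z)).card =
      (Finset.univ.filter (fun l => I l = z)).card := by
    intro z
    congr 1
    ext l
    simp only [Finset.mem_filter, Finset.mem_univ, true_and]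
    constructor
    · intro h
      rw [← bar_bar (I l), h, bar_bar]
    · intro h
      rw [h]
  have hsb : bar (σ • y) = σ • bar y := rfl
  have hyy : y = bar (bar y) := (bar_bar y).symm
  rw [hcount, hcount, hcl, hsb, hcl] at h1
  have h6 : σ • bar y = y := by
    rw [← hsb, hy, bar_bar]
  rw [h6, hy, hcb] at h1
  have h7 : (Finset.univ.filter (fun l => bar (I l) = y)).card =
      (Finset.univ.filter (fun l => I l = bar y)).card := by
    conv_lhs => rw [hyy]
    exact hcb (bar y)
  rw [h7] at h1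
  omega

theorem dd_kills {Ω : Type*} [Field Ω] [CharZero Ω] {W : Type*} [AddCommGroup W] [Module Ω W]
    {R : Type*} [Fintype R] [DecidableEq R] (e : Basis R Ω W) (inv : R → R)
    {κ : Type*} [Fintype κ] [DecidableEq κ] (φ : MultilinearMap Ω (fun _ : κ => W) Ω)
    (hbal : ∀ I : κ → R, φ (fun k => e (I k)) ≠ 0 → ∀ y,
        (Finset.univ.filter (fun k => I k = y)).card =
          (Finset.univ.filter (fun k => I k = inv y)).card) (y : R) :
    Kills (DD e inv y) φ := by
  refine kills_of_basis e _ _ fun I => ?_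
  have h1 : ∀ k, φ (Function.update (fun l => e (I l)) k (DD e inv y (e (I k)))) =
      dd inv y (I k) * φ (fun l => e (I l)) := by
    intro k
    rw [DD_basis, MultilinearMap.map_update_smul, smul_eq_mul]
    congr 2
    exact Function.update_eq_self k (fun l => e (I l))
  rw [Finset.sum_congr rfl (fun k _ => h1 k), ← Finset.sum_mul]
  by_cases h0 : φ (fun l => e (I l)) = 0
  · rw [h0, mul_zero]
  · have h2 := hbal I h0 y
    have h3 : ∑ k, (dd inv y (I k) : Ω) = 0 := by
      unfold dd
      rw [Finset.sum_sub_distrib, Finset.sum_boole, Finset.sum_boole, h2, sub_self]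
    rw [h3, zero_mul]

end setup

end

end Pool.Agent.Y137.MV
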