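import Mathlib
import Pool.Agent.Y137.MV.Main

/-!
# Equivariant maps are combinations of products of Tate forms with fixed vectors: components
-/

set_option linter.unusedSectionVars false

namespace Pool.Agent.Y137.MV

open NumberField Module TensorProduct IntermediateField
open Pool.Agent.H204R3.CM Pool.Agent.H204R3.SP Pool.Agent.H204R3.GP

noncomputable section

section desc

variable {k Ω : Type*} [Field k] [Field Ω] [Algebra k Ω] {V : Type*} [AddCommGroup V] [Module k V]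
  [CharZero k] [CharZero Ω] {ν : Type*} [Fintype ν] [DecidableEq ν] (b : Basis ν k V)
  {Γ : Type*} [Group Γ] (ρ : Representation k Γ V) (χ : Γ →* k)

include b in
/-- Descent of one form. -/
theorem descent_mem [FiniteDimensional k Ω] {m : ℕ}
    (φ : MultilinearMap k (fun _ : Fin m × Fin 2 => V) k)
    (h1 : bcm (Ω := Ω) b φ ∈ Submodule.span Ω (PT (bcr ρ Ω) (bcc χ Ω) m)) :
    φ ∈ Submodule.span k (PT ρ χ m) := by
  classical
  let w := Module.finBasis k Ω
  let res : MultilinearMap Ω (fun _ : Fin m × Fin 2 => Ω ⊗[k] V) Ω →ₗ[Ω]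
      ((Fin m × Fin 2 → V) → Ω) :=
    { toFun := fun F v => F (fun l => (1 : Ω) ⊗ₜ[k] v l)
      map_add' := fun _ _ => rfl
      map_smul' := fun _ _ => rfl }
  let emb : MultilinearMap k (fun _ : Fin m × Fin 2 => V) k →ₗ[k]
      ((Fin m × Fin 2 → V) → k) :=
    { toFun := fun F v => F v
      map_add' := fun _ _ => rfl
      map_smul' := fun _ _ => rfl }
  have h2 : res (bcm (Ω := Ω) b φ) = fun v => algebraMap k Ω (φ v) := by
    funext v
    exact bcm_one b φ v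
  have h3 : (fun v => algebraMap k Ω (φ v)) ∈ Submodule.span Ω
      {g : (Fin m × Fin 2 → V) → Ω | ∃ s ∈ emb '' (PT ρ χ m),
        g = fun x => algebraMap k Ω (s x)} := by
    rw [← h2]
    have h4 : (Submodule.span Ω (PT (bcr ρ Ω) (bcc χ Ω) m)).map res ≤ Submodule.span Ω
      {g : (Fin m × Fin 2 → V) → Ω | ∃ s ∈ emb '' (PT ρ χ m),
        g = fun x => algebraMap k Ω (s x)} := by
      rw [Submodule.map_span, Submodule.span_le]
      rintro _ ⟨_, ⟨σ, B, hB, rfl⟩, rfl⟩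
      have h5 : res (mmG σ B) = ∑ g : Fin m → Fin (finrank k Ω), (∏ l, w (g l)) •
          (fun v => algebraMap k Ω (mmG σ (fun l => comp2 w (B l) (g l)) v)) := by
        funext v
        rw [Finset.sum_apply]
        change mmG σ B (fun l => (1 : Ω) ⊗ₜ[k] v l) = _
        rw [mmG_apply]
        have h6 : ∀ l, B l ((1 : Ω) ⊗ₜ[k] v (σ (l, 0))) ((1 : Ω) ⊗ₜ[k] v (σ (l, 1))) =
            ∑ i, w i * algebraMap k Ω (comp2 w (B l) i (v (σ (l, 0))) (v (σ (l, 1)))) := by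
          intro l
          conv_lhs => rw [← w.sum_repr (B l ((1 : Ω) ⊗ₜ[k] v (σ (l, 0)))
            ((1 : Ω) ⊗ₜ[k] v (σ (l, 1))))]
          refine Finset.sum_congr rfl fun i _ => ?_
          rw [comp2_apply, Algebra.smul_def, mul_comm]
        rw [Finset.prod_congr rfl (fun l _ => h6 l), Finset.prod_univ_sum, Fintype.piFinset_univ]
        refine Finset.sum_congr rfl fun g _ => ?_
        rw [Finset.prod_mul_distrib, Pi.smul_apply, smul_eq_mul, mmG_apply, map_prod]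
      rw [h5]
      refine Submodule.sum_mem _ fun g _ => Submodule.smul_mem _ _ (Submodule.subset_span ?_)
      exact ⟨_, ⟨_, ⟨σ, _, fun l => comp2_tate ρ χ w (hB l) (g l), rfl⟩, rfl⟩, rfl⟩
    exact h4 (Submodule.mem_map_of_mem h1)
  have h4 := span_descent_k _ _ h3
  rw [← Submodule.map_span] at h4
  obtain ⟨φ', hφ', hφφ⟩ := h4
  have h6 : φ' = φ := MultilinearMap.ext fun v => congrFun hφφ v
  rwa [← h6]

end desc

section comp

variable {k : Type*} [Field k] [CharZero k] {V : Type*} [AddCommGroup V]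
    [Module k V] [FiniteDimensional k V]
    {p : ℕ} [Fact p.Prime] {a : ℕ}
    {ι : Type*} [Fintype ι] {F : ι → Type*} [∀ i, Field (F i)] [∀ i, NumberField (F i)]
    [∀ i, IsCMField (F i)] {π : ∀ i, F i}
    {L : Type*} [Field L] [NumberField L] [IsGalois ℚ L]
    {Γ : Type*} [Group Γ] (ρ : Representation k Γ V) (χ : Γ →* k)
    {M : Type*} [AddCommGroup M] [Module k M] (σ : Representation k Γ M)

/-- The eigenvectors under powers of the Frobenius element. -/
theorem eig_pow {Ω : Type*} [Field Ω] [Algebra k Ω] (jΩ : L →+* Ω) {γ : Γ}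
    (e : Basis (Σ i, (F i →+* L)) Ω (Ω ⊗[k] V))
    (he : ∀ x, bcr ρ Ω γ (e x) = jΩ (val π x) • e x) (n : ℕ) (x : Σ i, (F i →+* L)) :
    bcr ρ Ω (γ ^ n) (e x) = (jΩ (val π x)) ^ n • e x := by
  induction n with
  | zero => rw [pow_zero, pow_zero, one_smul, map_one]; rfl
  | succ n ih =>
    rw [pow_succ, map_mul, pow_succ, Module.End.mul_apply, he]
    change bcr ρ Ω (γ ^ n) ((jΩ (val π x)) • e x) = _
    rw [map_smul, ih, smul_smul, mul_comm]

/-- The nonzero coefficients of a scalar component of an equivariant map are balanced. -/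
theorem eqv_balanced (hw : ∀ i, π i * IsCMField.complexConj (F i) (π i) = (p : F i) ^ a)
    (j : L →+* ℂ) (hneat : Neat p a π L) {Ω : Type*} [Field Ω] [Algebra k Ω] [CharZero Ω]
    (jΩ : L →+* Ω) {γ : Γ}
    (e : Basis (Σ i, (F i →+* L)) Ω (Ω ⊗[k] V))
    (he : ∀ x, bcr ρ Ω γ (e x) = jΩ (val π x) • e x)
    {f : Polynomial ℚ} (hf : ∀ β : L, Polynomial.aeval β f = 0 → ∀ i, Forces π β i)
    (hroots : ∀ α : ℂ, Polynomial.aeval α f = 0 → ∃ β : L, j β = α)
    (hfγ : Polynomial.aeval (σ γ) (f.map (algebraMap ℚ k)) = 0)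
    {ν : Type*} [Fintype ν] [DecidableEq ν] (b : Basis ν k V)
    {κ : Type*} [Fintype κ] [DecidableEq κ] {φ : MultilinearMap k (fun _ : κ => V) M}
    (hφ : IsEqv ρ σ φ) (l : M →ₗ[k] k) (I : κ → (Σ i, (F i →+* L)))
    (h0 : bcm (Ω := Ω) b (l.compMultilinearMap φ) (fun l => e (I l)) ≠ 0)
    [DecidableEq (Σ i, (F i →+* L))] (y : Σ i, (F i →+* L)) :
    (Finset.univ.filter (fun l => I l = y)).card =
      (Finset.univ.filter (fun l => I l = bar y)).card := by
  obtain ⟨Δ, hΔ, hφ⟩ := hφ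
  obtain ⟨N, hN, -, hNΔ⟩ := Subgroup.exists_pow_mem_of_index_ne_zero hΔ.index_ne_zero γ
  have h1 := not_coprime (Ω := Ω) b ρ σ φ (s := γ) (N := N) (hφ _ hNΔ)
    (fun l => e (I l)) (jΩ (∏ l, (val π (I l)) ^ N)) (fun ψ => by
      simp only [eig_pow ρ jΩ e he]
      rw [MultilinearMap.map_smul_univ, smul_eq_mul, map_prod]
      simp only [map_pow]) _ hfγ l h0
  obtain ⟨α, hα, hαN⟩ := exists_root (k := k) j jΩ (∏ l, (val π (I l)) ^ N) N f h1
  obtain ⟨β, hβ⟩ := hroots α hα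
  refine Forces.balanced (hf β ?_) I hN ?_ y
  · apply j.injective
    rw [map_zero, ← hα, ← hβ]
    exact (Polynomial.aeval_algHom_apply (RingHom.equivRatAlgHom L ℂ j) β f).symm
  · apply j.injective
    rw [map_pow, hβ, hαN]

theorem odd_contra {κ : Type*} [Fintype κ] (hκ : Odd (Fintype.card κ))
    (I : κ → (Σ i, (F i →+* L))) [DecidableEq (Σ i, (F i →+* L))]
    (h : ∀ y, (Finset.univ.filter (fun l => I l = y)).card =
      (Finset.univ.filter (fun l => I l = bar y)).card) : False := by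
  have h1 : Fintype.card κ = ∑ y, (Finset.univ.filter (fun l => I l = y)).card := by
    rw [← Finset.card_univ]
    exact Finset.card_eq_sum_card_fiberwise fun x _ => Finset.mem_univ (I x)
  have h2 : ((Fintype.card κ : ℕ) : ZMod 2) = 0 := by
    rw [h1, Nat.cast_sum]
    refine Finset.sum_involution (fun y _ => bar y) (fun y _ => ?_) (fun y _ _ => bar_ne y)
      (fun y _ => Finset.mem_univ _) (fun y _ => bar_bar y)
    rw [h y]
    exact CharTwo.add_self_eq_zero _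
  rw [ZMod.natCast_eq_zero_iff] at h2
  exact Nat.not_even_iff_odd.2 hκ (even_iff_two_dvd.2 h2)

/-- The main theorem, for the scalar components. -/
theorem comp_mem (hgen : ∀ i, ℚ⟮π i⟯ = ⊤)
    (hw : ∀ i, π i * IsCMField.complexConj (F i) (π i) = (p : F i) ^ a)
    (j : L →+* ℂ)
    (h : ∀ i, ∀ ψ : F i →+* ℂ, ∃ φ : F i →+* L, j.comp φ = ψ) (hneat : Neat p a π L)
    (ω : V →ₗ[k] V →ₗ[k] k) (halt : ∀ v, ω v v = 0) (hnd : ∀ u, (∀ v, ω v u = 0) → u = 0)
    (hωρ : ∀ s u v, ω (ρ s u) (ρ s v) = χ s * ω u v)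
    (hss : ∀ Δ : Subgroup Γ, Δ.FiniteIndex → SemiUnder (ρ '' (Δ : Set Γ)))
    (γ : Γ) (hχ : χ γ = (p : k) ^ a)
    (hγ : (ρ γ).charpoly = ∏ i, (minpoly ℚ (π i)).map (algebraMap ℚ k))
    {f : Polynomial ℚ} (hf : ∀ β : L, Polynomial.aeval β f = 0 → ∀ i, Forces π β i)
    (hroots : ∀ α : ℂ, Polynomial.aeval α f = 0 → ∃ β : L, j β = α)
    (hfγ : Polynomial.aeval (σ γ) (f.map (algebraMap ℚ k)) = 0)
    {m : ℕ} {φ : MultilinearMap k (fun _ : Fin m × Fin 2 => V) M} (hφ : IsEqv ρ σ φ)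
    (l : M →ₗ[k] k) : l.compMultilinearMap φ ∈ Submodule.span k (PT ρ χ m) := by
  classical
  obtain ⟨Ω, hΩ, jΩ, e, jj, he, hjj, hj0, hω⟩ := exists_setup (L := L) ρ χ hgen hw j h hneat ω halt
    hnd hωρ γ hχ hγ
  let b := Module.finBasis k V
  have hbal : ∀ (m : ℕ) (φ : MultilinearMap Ω (fun _ : Fin m × Fin 2 => Ω ⊗[k] V) Ω),
      IsTate (bcr ρ Ω) (bcc χ Ω) m φ →
      ∀ I : Fin m × Fin 2 → (Σ i, (F i →+* L)), φ (fun l => e (I l)) ≠ 0 → ∀ y,
        (Finset.univ.filter (fun l => I l = y)).card =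
          (Finset.univ.filter (fun l => I l = bar y)).card := by
    rintro m φ ⟨Δ, hΔ, hφ⟩ I hI y
    obtain ⟨M, hM, -, hMΔ⟩ := Subgroup.exists_pow_mem_of_index_ne_zero hΔ.index_ne_zero γ
    refine hneat m M hM I ?_ y
    have h1 := hφ (γ ^ M) hMΔ (fun l => e (I l))
    simp only [eig_pow ρ jΩ e he] at h1
    rw [MultilinearMap.map_smul_univ, smul_eq_mul, map_pow, bcc_apply, hχ] at h1
    have h3 := mul_right_cancel₀ hI h1
    have h4 : jΩ (∏ l, (val π (I l)) ^ M) = jΩ (((p : L) ^ a) ^ (m * M)) := by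
      simp only [map_prod, map_pow, map_natCast] at h3 ⊢
      rw [h3, ← pow_mul, ← pow_mul, ← pow_mul]
      congr 1
      ring
    exact jΩ.injective h4
  have hD : ∀ y, DD e bar y ∈ lieM b ρ χ σ Ω := by
    intro y
    refine ⟨DD_mem e (bcr ρ Ω) (bcc χ Ω) bar hbal y, fun κ _ _ φ l hφ => ?_⟩
    exact dd_kills e bar _ (fun I hI => eqv_balanced ρ σ hw j hneat jΩ e he hf hroots hfγ b hφ l I hI) y
  refine descent_mem (Ω := Ω) b ρ χ _ ?_
  refine killed_mem e bar_bar bar_ne hjj hj0 (bcb Ω ω) hω (bcr ρ Ω) (bcc χ Ω)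
    (lieM b ρ χ σ Ω) (fun X hX => hX.1) (fun X hX Y hY => lieM_bracket b ρ χ σ hX hY)
    (fun s X hX => lieM_conj b ρ χ σ s hX) hD (bcb_inv ρ χ ω hωρ) ?_ _
    (fun X hX => hX.2 _ _ _ hφ)
  intro Δ hΔ U hU
  obtain ⟨P, hP1, hP2, hP3⟩ := exists_proj_baseChange (Ω := Ω) (ρ '' (Δ : Set Γ)) (hss Δ hΔ) U
    (by
      rintro _ ⟨s, hs, rfl⟩ u hu
      exact hU s hs u hu)
  exact ⟨P, hP1, hP2, fun s hs v => hP3 _ ⟨s, hs, rfl⟩ v⟩

/-- Equivariant maps in an odd number of variables vanish. -/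
theorem odd_zero (hgen : ∀ i, ℚ⟮π i⟯ = ⊤)
    (hw : ∀ i, π i * IsCMField.complexConj (F i) (π i) = (p : F i) ^ a)
    (j : L →+* ℂ)
    (h : ∀ i, ∀ ψ : F i →+* ℂ, ∃ φ : F i →+* L, j.comp φ = ψ) (hneat : Neat p a π L)
    (ω : V →ₗ[k] V →ₗ[k] k) (halt : ∀ v, ω v v = 0) (hnd : ∀ u, (∀ v, ω v u = 0) → u = 0)
    (hωρ : ∀ s u v, ω (ρ s u) (ρ s v) = χ s * ω u v)
    (γ : Γ) (hχ : χ γ = (p : k) ^ a)
    (hγ : (ρ γ).charpoly = ∏ i, (minpoly ℚ (π i)).map (algebraMap ℚ k))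
    {f : Polynomial ℚ} (hf : ∀ β : L, Polynomial.aeval β f = 0 → ∀ i, Forces π β i)
    (hroots : ∀ α : ℂ, Polynomial.aeval α f = 0 → ∃ β : L, j β = α)
    (hfγ : Polynomial.aeval (σ γ) (f.map (algebraMap ℚ k)) = 0)
    {κ : Type*} [Fintype κ] (hκ : Odd (Fintype.card κ))
    {φ : MultilinearMap k (fun _ : κ => V) M} (hφ : IsEqv ρ σ φ) : φ = 0 := by
  classical
  obtain ⟨Ω, hΩ, jΩ, e, jj, he, hjj, hj0, hω⟩ := exists_setup (L := L) ρ χ hgen hw j h hneat ω halt
    hnd hωρ γ hχ hγ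
  let b := Module.finBasis k V
  have h1 : ∀ l : M →ₗ[k] k, l.compMultilinearMap φ = 0 := by
    intro l
    have h2 : bcm (Ω := Ω) b (l.compMultilinearMap φ) = 0 := by
      refine Basis.ext_multilinear (fun _ => e) fun I => ?_
      by_contra h0
      exact odd_contra hκ I
        (eqv_balanced ρ σ hw j hneat jΩ e he hf hroots hfγ b hφ l I h0)
    ext v
    apply (algebraMap k Ω).injective
    rw [← bcm_one b, h2]
    exact (map_zero _).symm
  ext v
  rw [MultilinearMap.zero_apply, ← Module.forall_dual_apply_eq_zero_iff k]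
  intro l
  exact congrArg (fun F : MultilinearMap k (fun _ : κ => V) k => F v) (h1 l)

end comp

end

end Pool.Agent.Y137.MV
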