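import Mathlib
import Pool.Agent.Y137.MV.Comp

/-!
# Alternating equivariant maps with values in a representation
-/

set_option linter.unusedSectionVars false

namespace Pool.Agent.Y137.MV

open NumberField Module TensorProduct IntermediateField
open Pool.Agent.H204R3.CM Pool.Agent.H204R3.SP Pool.Agent.H204R3.GP

noncomputable section

variable {k : Type*} [Field k] {V : Type*} [AddCommGroup V] [Module k V]
  [CharZero k] {Γ : Type*} [Group Γ] (ρ : Representation k Γ V) (χ : Γ →* k)

/-- The wedge products of alternating Tate forms of degree two. -/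
def Wedges (n m : ℕ) : Set ((Fin n → V) [⋀^Fin m × Fin 2]→ₗ[k] k) :=
  {g | ∃ B : Fin m → (Fin n → V) [⋀^Fin 2]→ₗ[k] k,
    (∀ l, ∃ Δ : Subgroup Γ, Δ.FiniteIndex ∧ ∀ s ∈ Δ, ∀ v : Fin 2 → Fin n → V,
      B l (fun ε i => ρ s (v ε i)) = χ s * B l v) ∧
    ∀ v, g v = ∑ σ : Equiv.Perm (Fin m × Fin 2), ((Equiv.Perm.sign σ : ℤ) : k) *
      ∏ l, B l ![v (σ (l, 0)), v (σ (l, 1))]}

theorem alt_of_comp {n m : ℕ} (f : (Fin n → V) [⋀^Fin m × Fin 2]→ₗ[k] k)
    (hall : ∀ c : Fin m × Fin 2 → Fin n, f.toMultilinearMap.compLinearMap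
      (fun l => LinearMap.single k (fun _ : Fin n => V) (c l)) ∈ Submodule.span k (PT ρ χ m)) :
    f ∈ Submodule.span k (Wedges ρ χ n m) := by
  classical
  let BB : Set (MultilinearMap k (fun _ : Fin 2 => Fin n → V) k) :=
    {B | ∃ Δ : Subgroup Γ, Δ.FiniteIndex ∧ ∀ s ∈ Δ, ∀ v : Fin 2 → Fin n → V,
      B (fun ε i => ρ s (v ε i)) = χ s * B v}
  have hmem : (fun v => f v) ∈ Submodule.span k {g : (Fin m × Fin 2 → Fin n → V) → k |
      ∃ (e : Equiv.Perm (Fin m × Fin 2))
        (B : Fin m → MultilinearMap k (fun _ : Fin 2 => Fin n → V) k),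
        (∀ s, B s ∈ BB) ∧ g = fun v => ∏ s, B s (fun ε => v (e (s, ε)))} := by
    let fc : (Fin m × Fin 2 → Fin n) → MultilinearMap k (fun _ : Fin m × Fin 2 => V) k := fun c =>
      f.toMultilinearMap.compLinearMap (fun l => LinearMap.single k (fun _ : Fin n => V) (c l))
    have hsum : (fun v => f v) = ∑ c : Fin m × Fin 2 → Fin n,
        (fun v : Fin m × Fin 2 → Fin n → V => fc c (fun l => v l (c l))) := by
      funext v
      rw [Finset.sum_apply]
      have h1 : v = fun l => ∑ i, Pi.single i (v l i) := by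
        funext l
        exact (Finset.univ_sum_single (v l)).symm
      conv_lhs => rw [h1]
      exact f.toMultilinearMap.map_sum (fun l i => Pi.single i (v l i))
    rw [hsum]
    refine Submodule.sum_mem _ fun c _ => ?_
    have h2 := hall c
    have h3 : ∀ φ ∈ Submodule.span k (PT ρ χ m),
        (fun v : Fin m × Fin 2 → Fin n → V => φ (fun l => v l (c l))) ∈
        Submodule.span k {g : (Fin m × Fin 2 → Fin n → V) → k |
      ∃ (e : Equiv.Perm (Fin m × Fin 2))
        (B : Fin m → MultilinearMap k (fun _ : Fin 2 => Fin n → V) k),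
        (∀ s, B s ∈ BB) ∧ g = fun v => ∏ s, B s (fun ε => v (e (s, ε)))} := by
      intro φ hφ
      induction hφ using Submodule.span_induction with
      | mem φ hφ =>
        obtain ⟨σ, B, hB, rfl⟩ := hφ
        refine Submodule.subset_span ⟨σ, fun s => bil2 ((B s).compl₁₂
          (LinearMap.proj (c (σ (s, 0)))) (LinearMap.proj (c (σ (s, 1))))), fun s => ?_, ?_⟩
        · obtain ⟨Δ', hΔ', hB'⟩ := hB s
          refine ⟨Δ', hΔ', fun t ht v => ?_⟩
          rw [bil2_apply, bil2_apply]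
          exact hB' t ht _ _
        · funext v
          rw [mmG_apply]
          rfl
      | zero => exact Submodule.zero_mem _
      | add a b _ _ ha hb => exact Submodule.add_mem _ ha hb
      | smul c a _ ha => exact Submodule.smul_mem _ c ha
    exact h3 _ h2
  have h1 := alt_span BB f hmem
  refine Submodule.span_mono ?_ h1
  rintro g ⟨B, hB, hg⟩
  refine ⟨fun l => MultilinearMap.alternatization (B l), fun l => ?_, hg⟩
  obtain ⟨Δ', hΔ', hB'⟩ := hB l
  refine ⟨Δ', hΔ', fun s hs v => ?_⟩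
  rw [MultilinearMap.alternatization_apply, MultilinearMap.alternatization_apply, Finset.mul_sum]
  refine Finset.sum_congr rfl fun σ _ => ?_
  rw [mul_smul_comm]
  congr 1
  exact hB' s hs (fun ε => v (σ ε))

/-- Wedge products of Tate forms are Tate forms. -/
theorem wedge_tate {n m : ℕ} {g : (Fin n → V) [⋀^Fin m × Fin 2]→ₗ[k] k}
    (hg : g ∈ Wedges ρ χ n m) : ∃ Δ : Subgroup Γ, Δ.FiniteIndex ∧ ∀ s ∈ Δ,
      ∀ v : Fin m × Fin 2 → Fin n → V, g (fun l i => ρ s (v l i)) = χ s ^ m * g v := by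
  obtain ⟨B, hB, hg⟩ := hg
  choose Δ hΔ hB using hB
  refine ⟨⨅ l, Δ l, Subgroup.finiteIndex_iInf hΔ, fun s hs v => ?_⟩
  rw [hg, hg, Finset.mul_sum]
  refine Finset.sum_congr rfl fun σ _ => ?_
  have h1 : ∀ l, B l ![fun i => ρ s (v (σ (l, 0)) i), fun i => ρ s (v (σ (l, 1)) i)] =
      χ s * B l ![v (σ (l, 0)), v (σ (l, 1))] := by
    intro l
    rw [← hB l s (Subgroup.mem_iInf.1 hs l)]
    congr 1
    funext ε
    fin_cases ε <;> rfl
  rw [Finset.prod_congr rfl (fun l _ => h1 l), Finset.prod_mul_distrib, Finset.prod_const,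
    Finset.card_univ, Fintype.card_fin]
  ring

variable {M : Type*} [AddCommGroup M] [Module k M] [FiniteDimensional k M]
  (τ : Representation k Γ M)

/-- The products of wedge products of Tate forms with vectors on which a subgroup of finite index
acts through the power of the character. -/
def Products (n m : ℕ) : Set ((Fin n → V) [⋀^Fin m × Fin 2]→ₗ[k] M) :=
  {g | ∃ h ∈ Wedges ρ χ n m, ∃ w : M,
    (∃ Δ : Subgroup Γ, Δ.FiniteIndex ∧ ∀ s ∈ Δ, τ s w = χ s ^ m • w) ∧ ∀ v, g v = h v • w}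

instance alt_finite [FiniteDimensional k V] (n m : ℕ) :
    FiniteDimensional k ((Fin n → V) [⋀^Fin m × Fin 2]→ₗ[k] k) := by
  let T : ((Fin n → V) [⋀^Fin m × Fin 2]→ₗ[k] k) →ₗ[k]
      MultilinearMap k (fun _ : Fin m × Fin 2 => Fin n → V) k :=
    { toFun := fun f => f.toMultilinearMap
      map_add' := fun _ _ => rfl
      map_smul' := fun _ _ => rfl }
  refine FiniteDimensional.of_injective T fun f g h => ?_
  exact AlternatingMap.coe_multilinearMap_injective h

/-- The final step: an equivariant alternating map with values in `M` all of whose scalar components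
are combinations of wedge products is a combination of products. -/
theorem final_step [FiniteDimensional k V] {n m : ℕ} (f : (Fin n → V) [⋀^Fin m × Fin 2]→ₗ[k] M)
    (hf : ∃ Δ : Subgroup Γ, Δ.FiniteIndex ∧ ∀ s ∈ Δ, ∀ v : Fin m × Fin 2 → Fin n → V,
      f (fun l i => ρ s (v l i)) = τ s (f v))
    (hc : ∀ l : M →ₗ[k] k, l.compAlternatingMap f ∈ Submodule.span k (Wedges ρ χ n m)) :
    f ∈ Submodule.span k (Products ρ χ τ n m) := by
  classical
  obtain ⟨S, hS1, hS2, hS3⟩ := exists_linearIndependent k (Wedges ρ χ (V := V) n m)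
  have hfin : Finite S := hS3.finite
  have _ : Fintype S := Fintype.ofFinite S
  -- the coefficients
  let BS : Basis S k (Submodule.span k (Set.range ((↑) : S → ((Fin n → V) [⋀^Fin m × Fin 2]→ₗ[k] k)))) :=
    Basis.span hS3
  have hrange : Submodule.span k (Set.range ((↑) : S → ((Fin n → V) [⋀^Fin m × Fin 2]→ₗ[k] k))) =
      Submodule.span k (Wedges ρ χ n m) := by
    rw [Subtype.range_coe, hS2]
  let T : Dual k M →ₗ[k]
      (Submodule.span k (Set.range ((↑) : S → ((Fin n → V) [⋀^Fin m × Fin 2]→ₗ[k] k)))) :=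
    { toFun := fun l => ⟨l.compAlternatingMap f, by rw [hrange]; exact hc l⟩
      map_add' := fun l l' => Subtype.ext (AlternatingMap.ext fun v => rfl)
      map_smul' := fun c l => Subtype.ext (AlternatingMap.ext fun v => rfl) }
  let w : S → M := fun g => (Module.evalEquiv k M).symm ((BS.coord g).comp T)
  have hw : ∀ g (l : Dual k M), l (w g) = BS.coord g (T l) := by
    intro g l
    have h1 := Module.apply_evalEquiv_symm_apply k M l ((BS.coord g).comp T)
    exact h1
  have hfw : ∀ v, f v = ∑ g : S, (g : (Fin n → V) [⋀^Fin m × Fin 2]→ₗ[k] k) v • w g := by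
    intro v
    rw [← sub_eq_zero, ← Module.forall_dual_apply_eq_zero_iff k]
    intro l
    rw [map_sub, map_sum, sub_eq_zero]
    have h1 : l (f v) = ((T l : Submodule.span k (Set.range ((↑) : S →
        ((Fin n → V) [⋀^Fin m × Fin 2]→ₗ[k] k)))) : (Fin n → V) [⋀^Fin m × Fin 2]→ₗ[k] k) v := rfl
    rw [h1]
    conv_lhs => rw [← BS.sum_repr (T l)]
    have h2 : ∀ g : S, ((BS g : Submodule.span k (Set.range ((↑) : S →
        ((Fin n → V) [⋀^Fin m × Fin 2]→ₗ[k] k)))) : (Fin n → V) [⋀^Fin m × Fin 2]→ₗ[k] k) =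
        (g : (Fin n → V) [⋀^Fin m × Fin 2]→ₗ[k] k) := by
      intro g
      exact congrArg Subtype.val (Basis.span_apply hS3 g)
    rw [Submodule.coe_sum]
    have h3 : ∀ G : S → ((Fin n → V) [⋀^Fin m × Fin 2]→ₗ[k] k), (∑ g, G g) v = ∑ g, G g v := by
      intro G
      exact map_sum ({ toFun := fun F => F v
                       map_zero' := rfl
                       map_add' := fun _ _ => rfl } :
        ((Fin n → V) [⋀^Fin m × Fin 2]→ₗ[k] k) →+ k) G Finset.univ
    rw [h3]
    refine Finset.sum_congr rfl fun g _ => ?_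
    rw [Submodule.coe_smul, h2, map_smul, hw, smul_eq_mul, mul_comm]
    rfl
  -- the vectors are eigenvectors
  obtain ⟨Δ0, hΔ0, hf⟩ := hf
  choose Δ hΔ hg using fun g : S => wedge_tate ρ χ (hS1 g.2)
  have hD : (Δ0 ⊓ ⨅ g, Δ g).FiniteIndex := by
    have h1 := Subgroup.finiteIndex_iInf hΔ
    infer_instance
  have hwΔ : ∀ s ∈ Δ0 ⊓ ⨅ g, Δ g, ∀ g, τ s (w g) = χ s ^ m • w g := by
    intro s hs g
    rw [Subgroup.mem_inf] at hs
    rw [← sub_eq_zero, ← Module.forall_dual_apply_eq_zero_iff k]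
    intro l
    have h1 : ∑ g : S, (l (τ s (w g) - χ s ^ m • w g)) •
        (g : (Fin n → V) [⋀^Fin m × Fin 2]→ₗ[k] k) = 0 := by
      ext v
      have h2 := hf s hs.1 v
      rw [hfw, hfw, map_sum] at h2
      have h3 : ∀ g : S, (g : (Fin n → V) [⋀^Fin m × Fin 2]→ₗ[k] k) (fun l i => ρ s (v l i)) =
          χ s ^ m * (g : (Fin n → V) [⋀^Fin m × Fin 2]→ₗ[k] k) v :=
        fun g => hg g s (Subgroup.mem_iInf.1 hs.2 g) v
      simp only [h3, map_smul] at h2
      have h4 := congrArg l h2
      rw [map_sum, map_sum] at h4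
      have h5 : ∀ G : S → ((Fin n → V) [⋀^Fin m × Fin 2]→ₗ[k] k), (∑ g, G g) v = ∑ g, G g v := by
        intro G
        exact map_sum ({ toFun := fun F => F v
                         map_zero' := rfl
                         map_add' := fun _ _ => rfl } :
          ((Fin n → V) [⋀^Fin m × Fin 2]→ₗ[k] k) →+ k) G Finset.univ
      rw [h5]
      change ∑ g : S, (l (τ s (w g) - χ s ^ m • w g)) *
        (g : (Fin n → V) [⋀^Fin m × Fin 2]→ₗ[k] k) v = 0
      have h6 : ∀ g : S, (l (τ s (w g) - χ s ^ m • w g)) *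
          (g : (Fin n → V) [⋀^Fin m × Fin 2]→ₗ[k] k) v =
          l ((g : (Fin n → V) [⋀^Fin m × Fin 2]→ₗ[k] k) v • τ s (w g)) -
          l ((χ s ^ m * (g : (Fin n → V) [⋀^Fin m × Fin 2]→ₗ[k] k) v) • w g) := by
        intro g
        rw [map_sub, map_smul, map_smul, map_smul, smul_eq_mul, smul_eq_mul, smul_eq_mul]
        ring
      rw [Finset.sum_congr rfl (fun g _ => h6 g), Finset.sum_sub_distrib, h4, sub_self]
    exact (Fintype.linearIndependent_iff.1 hS3) _ h1 g
  have hfin2 : f = ∑ g : S, (LinearMap.toSpanSingleton k M (w g)).compAlternatingMap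
      (g : (Fin n → V) [⋀^Fin m × Fin 2]→ₗ[k] k) := by
    ext v
    rw [hfw]
    exact (map_sum ({ toFun := fun F => F v
                      map_zero' := rfl
                      map_add' := fun _ _ => rfl } :
      ((Fin n → V) [⋀^Fin m × Fin 2]→ₗ[k] M) →+ M)
        (fun g : S => (LinearMap.toSpanSingleton k M (w g)).compAlternatingMap
          (g : (Fin n → V) [⋀^Fin m × Fin 2]→ₗ[k] k)) Finset.univ).symm
  rw [hfin2]
  refine Submodule.sum_mem _ fun g _ => Submodule.subset_span ⟨g, hS1 g.2, w g, ?_, fun v => rfl⟩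
  exact ⟨_, hD, fun s hs => hwΔ s hs g⟩

end

end Pool.Agent.Y137.MV
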