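import Mathlib

/-!
# Irreducible representations on odd functions
-/

set_option linter.unusedSectionVars false

namespace Pool.Agent.Y137.MV

noncomputable section

/-- Odd functions on a set with an involution. -/
def OddFun {E : Type*} (inv : E → E) (n : E → ℚ) : Prop := ∀ x, n (inv x) = -n x

/-- The odd functions form an irreducible representation. -/
def IrrOdd {E : Type*} (G : Type*) [Group G] [MulAction G E] (inv : E → E) : Prop :=
  ∀ W : Submodule ℚ (E → ℚ), (∀ n ∈ W, OddFun inv n) →
    (∀ g : G, ∀ n ∈ W, (fun x => n (g • x)) ∈ W) → W = ⊥ ∨ ∀ n, OddFun inv n → n ∈ W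

/-- All equivariant maps to the odd functions kill odd functions. -/
def UnrelOdd {E E' : Type*} (G : Type*) [Group G] [MulAction G E] [MulAction G E'] (inv : E → E)
    (inv' : E' → E') : Prop :=
  ∀ T : (E → ℚ) →ₗ[ℚ] (E' → ℚ), (∀ (g : G) n x, T (fun y => n (g • y)) x = T n (g • x)) →
    (∀ n, OddFun inv' (T n)) → ∀ n, OddFun inv n → T n = 0

/-- A nonzero stable subspace of the odd functions on a disjoint union of sets with irreducible and
pairwise unrelated spaces of odd functions contains all the odd functions on one of the sets. -/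
theorem core_irr {ι : Type*} [Fintype ι] [DecidableEq ι] {E : ι → Type*} {G : Type*} [Group G]
    [∀ i, MulAction G (E i)] (inv : ∀ i, E i → E i) (hinv : ∀ i x, inv i (inv i x) = x)
    (hG : ∀ (g : G) i (x : E i), g • inv i x = inv i (g • x))
    (hirr : ∀ i, IrrOdd G (inv i)) (hun : ∀ i i', i ≠ i' → UnrelOdd G (inv i) (inv i'))
    (S : Submodule ℚ (∀ i, E i → ℚ)) (hodd : ∀ c ∈ S, ∀ i, OddFun (inv i) (c i))
    (hst : ∀ g : G, ∀ c ∈ S, (fun i x => c i (g • x)) ∈ S) (hS : S ≠ ⊥) :
    ∃ i, ∀ n : E i → ℚ, OddFun (inv i) n → Pi.single i n ∈ S := by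
  classical
  obtain ⟨c0, hc0, hc00⟩ := Submodule.exists_mem_ne_zero_of_ne_bot hS
  -- minimal support
  let P : ℕ → Prop := fun N => ∃ c ∈ S, c ≠ 0 ∧ (Finset.univ.filter (fun i => c i ≠ 0)).card = N
  have hP : ∃ N, P N := ⟨_, c0, hc0, hc00, rfl⟩
  obtain ⟨c, hcS, hc, hcard⟩ := Nat.find_spec hP
  set I := Finset.univ.filter (fun i => c i ≠ 0) with hI
  have hmin : ∀ d ∈ S, d ≠ 0 → I.card ≤ (Finset.univ.filter (fun i => d i ≠ 0)).card := by
    intro d hd hd0
    rw [hcard]
    exact Nat.find_min' hP ⟨d, hd, hd0, rfl⟩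
  have hIne : I.Nonempty := by
    by_contra h
    rw [Finset.not_nonempty_iff_eq_empty] at h
    apply hc
    funext i
    by_contra hi
    have h1 : i ∈ I := by
      rw [hI, Finset.mem_filter]
      exact ⟨Finset.mem_univ _, hi⟩
    rw [h] at h1
    exact absurd h1 (Finset.notMem_empty i)
  obtain ⟨i0, hi0⟩ := hIne
  have hci : ∀ i, c i ≠ 0 ↔ i ∈ I := by
    intro i
    rw [hI, Finset.mem_filter]
    simp
  let SI : Submodule ℚ (∀ i, E i → ℚ) :=
    { carrier := {d | d ∈ S ∧ ∀ i, i ∉ I → d i = 0}
      zero_mem' := ⟨S.zero_mem, fun _ _ => rfl⟩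
      add_mem' := fun ha hb => ⟨S.add_mem ha.1 hb.1, fun i hi => by
        rw [Pi.add_apply, ha.2 i hi, hb.2 i hi, add_zero]⟩
      smul_mem' := fun r a ha => ⟨S.smul_mem r ha.1, fun i hi => by
        rw [Pi.smul_apply, ha.2 i hi, smul_zero]⟩ }
  have hSI0 : ∀ d ∈ SI, d i0 = 0 → d = 0 := by
    intro d hd hd0
    by_contra h
    have h1 := hmin d hd.1 h
    have h2 : (Finset.univ.filter (fun i => d i ≠ 0)) ⊆ I.erase i0 := by
      intro i hi
      rw [Finset.mem_filter] at hi
      rw [Finset.mem_erase]
      refine ⟨?_, ?_⟩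
      · rintro rfl
        exact hi.2 hd0
      · by_contra h3
        exact hi.2 (hd.2 i h3)
    have h3 := Finset.card_le_card h2
    rw [Finset.card_erase_of_mem hi0] at h3
    have h4 : 0 < I.card := Finset.card_pos.2 ⟨i0, hi0⟩
    omega
  have hSIst : ∀ g : G, ∀ d ∈ SI, (fun i x => d i (g • x)) ∈ SI := by
    intro g d hd
    refine ⟨hst g d hd.1, fun i hi => ?_⟩
    funext x
    have := hd.2 i hi
    change d i (g • x) = 0
    rw [this]
    rfl
  -- the projection to the component `i0`
  let W : Submodule ℚ (E i0 → ℚ) := SI.map (LinearMap.proj i0)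
  have hWodd : ∀ n ∈ W, OddFun (inv i0) n := by
    rintro _ ⟨d, hd, rfl⟩
    exact hodd d hd.1 i0
  have hWst : ∀ g : G, ∀ n ∈ W, (fun x => n (g • x)) ∈ W := by
    rintro g _ ⟨d, hd, rfl⟩
    exact ⟨_, hSIst g d hd, rfl⟩
  have hcSI : c ∈ SI := ⟨hcS, fun i hi => by
    by_contra h
    exact hi ((hci i).1 h)⟩
  have hWall : ∀ n, OddFun (inv i0) n → n ∈ W := by
    rcases hirr i0 W hWodd hWst with h | h
    · exfalso
      have h1 : c i0 ∈ W := ⟨c, hcSI, rfl⟩
      rw [h, Submodule.mem_bot] at h1
      exact (hci i0).2 hi0 h1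
    · exact h
  -- the space of odd functions and the inverse of the projection
  let Od : Submodule ℚ (E i0 → ℚ) :=
    { carrier := {n | OddFun (inv i0) n}
      zero_mem' := fun x => by simp
      add_mem' := fun ha hb x => by
        rw [Pi.add_apply, Pi.add_apply, ha x, hb x]
        ring
      smul_mem' := fun r a ha x => by
        rw [Pi.smul_apply, Pi.smul_apply, ha x, smul_neg] }
  let Q : SI →ₗ[ℚ] Od :=
    { toFun := fun d => ⟨d.1 i0, hodd d.1 d.2.1 i0⟩
      map_add' := fun _ _ => rfl
      map_smul' := fun _ _ => rfl }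
  have hQ : Function.Bijective Q := by
    constructor
    · rw [injective_iff_map_eq_zero]
      intro d hd
      have h1 : d.1 i0 = 0 := congrArg Subtype.val hd
      exact Subtype.ext (hSI0 d.1 d.2 h1)
    · rintro ⟨n, hn⟩
      obtain ⟨d, hd, hdn⟩ := hWall n hn
      exact ⟨⟨d, hd⟩, Subtype.ext hdn⟩
  let Qe := LinearEquiv.ofBijective Q hQ
  have hQe : ∀ d : SI, Qe d = ⟨d.1 i0, hodd d.1 d.2.1 i0⟩ := fun d => rfl
  refine ⟨i0, fun n hn => ?_⟩
  obtain ⟨d, hd, hdn⟩ := hWall n hn
  have hdn' : d i0 = n := hdn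
  -- all other components vanish
  have hother : ∀ i1, i1 ≠ i0 → d i1 = 0 := by
    intro i1 hi1
    by_contra hne
    have hi1I : i1 ∈ I := by
      by_contra h
      exact hne (hd.2 i1 h)
    let A : (E i0 → ℚ) →ₗ[ℚ] Od :=
      { toFun := fun m => ⟨fun x => m x - m (inv i0 x), fun x => by
          change m (inv i0 x) - m (inv i0 (inv i0 x)) = -(m x - m (inv i0 x))
          rw [hinv]
          ring⟩
        map_add' := fun a b => Subtype.ext (funext fun x => by
          change (a + b) x - (a + b) (inv i0 x) = (a x - a (inv i0 x)) + (b x - b (inv i0 x))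
          rw [Pi.add_apply, Pi.add_apply]
          ring)
        map_smul' := fun r a => Subtype.ext (funext fun x => by
          change (r • a) x - (r • a) (inv i0 x) = r • (a x - a (inv i0 x))
          rw [Pi.smul_apply, Pi.smul_apply, smul_sub]) }
    let T : (E i0 → ℚ) →ₗ[ℚ] (E i1 → ℚ) :=
      (LinearMap.proj i1).comp (SI.subtype.comp (Qe.symm.toLinearMap.comp A))
    have hT : ∀ m (d' : SI), (∀ x, d'.1 i0 x = m x - m (inv i0 x)) → T m = d'.1 i1 := by
      intro m d' h
      have h1 : A m = Qe d' := Subtype.ext (funext fun x => (h x).symm)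
      change (Qe.symm (A m)).1 i1 = _
      rw [h1, LinearEquiv.symm_apply_apply]
    have hT1 : ∀ (g : G) m x, T (fun y => m (g • y)) x = T m (g • x) := by
      intro g m x
      obtain ⟨d', hd'⟩ : ∃ d' : SI, Qe d' = A m := ⟨Qe.symm (A m), Qe.apply_symm_apply _⟩
      have h1 : ∀ x, d'.1 i0 x = m x - m (inv i0 x) := by
        intro x
        exact congrFun (congrArg Subtype.val hd') x
      rw [hT m d' h1, hT (fun y => m (g • y)) ⟨_, hSIst g d'.1 d'.2⟩]
      intro x
      change d'.1 i0 (g • x) = m (g • x) - m (g • inv i0 x)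
      rw [h1, hG]
    have hT2 : ∀ m, OddFun (inv i1) (T m) := by
      intro m
      obtain ⟨d', hd'⟩ : ∃ d' : SI, Qe d' = A m := ⟨Qe.symm (A m), Qe.apply_symm_apply _⟩
      rw [hT m d' (fun x => congrFun (congrArg Subtype.val hd') x)]
      exact hodd _ d'.2.1 i1
    have h1 := hun i0 i1 (Ne.symm hi1) T hT1 hT2 (d i0) (hodd d hd.1 i0)
    have h2 : T (d i0) = (2 : ℚ) • d i1 := by
      rw [hT (d i0) ((2 : ℚ) • ⟨d, hd⟩)]
      · rfl
      · intro x
        change (2 : ℚ) • d i0 x = d i0 x - d i0 (inv i0 x)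
        rw [hodd d hd.1 i0 x, smul_eq_mul]
        ring
    rw [h2] at h1
    exact hne ((smul_eq_zero.1 h1).resolve_left two_ne_zero)
  have h1 : Pi.single i0 n = d := by
    funext i
    by_cases hi : i = i0
    · subst hi
      rw [Pi.single_eq_same, hdn']
    · rw [Pi.single_eq_of_ne hi, hother i hi]
  rw [h1]
  exact hd.1

/-- There are many independent odd functions. -/
theorem card_le_odd {E : Type*} [Fintype E] [DecidableEq E] (inv : E → E)
    (hinv : ∀ x, inv (inv x) = x) (hne : ∀ x, inv x ≠ x) (W : Submodule ℚ (E → ℚ))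
    (hW : ∀ n, OddFun inv n → n ∈ W) : Fintype.card E ≤ 2 * Module.finrank ℚ W := by
  classical
  let e := Fintype.equivFin E
  let H : Finset E := Finset.univ.filter (fun x => e x < e (inv x))
  have hH : ∀ x, x ∈ H ↔ e x < e (inv x) := by
    intro x
    simp [H]
  have h1 : Finset.univ = H ∪ H.image inv := by
    ext x
    simp only [Finset.mem_univ, true_iff, Finset.mem_union, Finset.mem_image]
    rcases lt_trichotomy (e x) (e (inv x)) with h | h | h
    · exact Or.inl ((hH x).2 h)
    · exact absurd (e.injective h).symm (hne x)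
    · refine Or.inr ⟨inv x, (hH _).2 (by rw [hinv]; exact h), hinv x⟩
  have h2 : Fintype.card E ≤ 2 * H.card := by
    rw [← Finset.card_univ, h1]
    have h3 := Finset.card_union_le H (H.image inv)
    have h4 := Finset.card_image_le (s := H) (f := inv)
    omega
  let v : H → W := fun x => ⟨fun y => (if y = x then 1 else 0) - (if y = inv x then 1 else 0),
    hW _ (by
      intro y
      change (if inv y = x.1 then (1 : ℚ) else 0) - (if inv y = inv x then 1 else 0) =
        -((if y = x then 1 else 0) - (if y = inv x then 1 else 0))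
      have e1 : (inv y = x.1) ↔ (y = inv x) := by
        constructor
        · intro h
          rw [← h, hinv]
        · intro h
          rw [h, hinv]
      have e2 : (inv y = inv x) ↔ (y = x.1) := by
        constructor
        · intro h
          rw [← hinv y, h, hinv]
        · intro h
          rw [h]
      simp only [e1, e2]
      ring)⟩
  have hv : LinearIndependent ℚ v := by
    rw [Fintype.linearIndependent_iff]
    intro c hc x
    have h3 := congrFun (congrArg Subtype.val hc) x.1
    rw [Submodule.coe_sum, Finset.sum_apply] at h3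
    have h4 : ∀ z : H, ((c z • v z : W) : E → ℚ) x.1 = if z = x then c z else 0 := by
      intro z
      change c z * ((if x.1 = z then (1 : ℚ) else 0) - (if x.1 = inv z then 1 else 0)) = _
      have h5 : ¬ (x.1 = inv z) := by
        intro h6
        have h7 := (hH _).1 x.2
        have h8 := (hH _).1 z.2
        rw [h6, hinv] at h7
        exact absurd h7 (not_lt.2 h8.le)
      rw [if_neg h5, sub_zero]
      by_cases h6 : z = x
      · rw [if_pos h6, if_pos (by rw [h6]), mul_one]
      · rw [if_neg h6, if_neg (fun h7 => h6 (Subtype.ext h7.symm)), mul_zero]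
    rw [Finset.sum_congr rfl (fun z _ => h4 z), Finset.sum_ite_eq' Finset.univ x c,
      if_pos (Finset.mem_univ _)] at h3
    exact h3
  have h5 := hv.fintype_card_le_finrank
  rw [Fintype.card_coe] at h5
  omega

/-- If the odd functions are irreducible, an element with few conjugates does not split the set. -/
theorem core_deg {E : Type*} [Fintype E] {G : Type*} [Group G] [MulAction G E]
    (inv : E → E) (hinv : ∀ x, inv (inv x) = x) (hne : ∀ x, inv x ≠ x)
    (hG : ∀ (g : G) (x : E), g • inv x = inv (g • x)) (c : G) (hc : ∀ x : E, c • x = inv x)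
    (hirr : IrrOdd G inv) {Y : Type*} [MulAction G Y] (α : Y) [Finite (MulAction.orbit G α)]
    (hcard : Nat.card (MulAction.orbit G α) < Fintype.card E) (x : E) :
    ∃ g : G, g • α = α ∧ g • x = inv x := by
  classical
  by_contra hno
  push Not at hno
  let H : Subgroup G := MulAction.stabilizer G α
  have hHmem : ∀ g, g ∈ H ↔ g • α = α := fun g => MulAction.mem_stabilizer_iff
  let O : Set E := {y | ∃ h ∈ H, h • x = y}
  let n : E → ℚ := fun y => (if y ∈ O then 1 else 0) - (if inv y ∈ O then 1 else 0)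
  have hnodd : OddFun inv n := by
    intro y
    simp only [n, hinv]
    ring
  have hnH : ∀ h ∈ H, ∀ y, n (h • y) = n y := by
    intro h hh y
    have e1 : ∀ z, h • z ∈ O ↔ z ∈ O := by
      intro z
      constructor
      · rintro ⟨h', hh', h1⟩
        refine ⟨h⁻¹ * h', H.mul_mem (H.inv_mem hh) hh', ?_⟩
        rw [mul_smul, h1, inv_smul_smul]
      · rintro ⟨h', hh', rfl⟩
        exact ⟨h * h', H.mul_mem hh hh', mul_smul _ _ _⟩
    simp only [n]
    rw [← hG]
    simp only [e1]
  have hnx : n x = 1 := by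
    have e1 : x ∈ O := ⟨1, H.one_mem, one_smul _ _⟩
    have e2 : inv x ∉ O := by
      rintro ⟨h, hh, h1⟩
      exact hno h ((hHmem h).1 hh) h1
    simp only [n]
    rw [if_pos e1, if_neg e2, sub_zero]
  -- the translates
  let tr : G → (E → ℚ) := fun g y => n (g⁻¹ • y)
  have htr : ∀ g h, g • α = h • α → tr g = tr h := by
    intro g h hgh
    funext y
    have h1 : h⁻¹ * g ∈ H := by
      rw [hHmem, mul_smul, hgh, inv_smul_smul]
    change n (g⁻¹ • y) = n (h⁻¹ • y)
    rw [← hnH _ h1 (g⁻¹ • y), ← mul_smul, mul_assoc, mul_inv_cancel, mul_one]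
  have hfin : (Set.range tr).Finite := by
    have h1 : ∀ z : MulAction.orbit G α, ∃ g : G, g • α = z.1 := fun z => z.2
    choose r hr using h1
    have h2 : Set.range tr ⊆ Set.range (fun z => tr (r z)) := by
      rintro _ ⟨g, rfl⟩
      exact ⟨⟨g • α, g, rfl⟩, htr _ _ (hr _)⟩
    exact (Set.finite_range _).subset h2
  have _ := hfin.to_subtype
  have hcard2 : Nat.card (Set.range tr) ≤ Nat.card (MulAction.orbit G α) := by
    have h1 : ∀ z : MulAction.orbit G α, ∃ g : G, g • α = z.1 := fun z => z.2
    choose r hr using h1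
    refine Nat.card_le_card_of_surjective (fun z => (⟨tr (r z), r z, rfl⟩ : Set.range tr)) ?_
    rintro ⟨_, g, rfl⟩
    exact ⟨⟨g • α, g, rfl⟩, Subtype.ext (htr _ _ (hr _))⟩
  let W : Submodule ℚ (E → ℚ) := Submodule.span ℚ (Set.range tr)
  have hWodd : ∀ m ∈ W, OddFun inv m := by
    intro m hm
    induction hm using Submodule.span_induction with
    | mem m hm =>
      obtain ⟨g, rfl⟩ := hm
      intro y
      change n (g⁻¹ • inv y) = -n (g⁻¹ • y)
      rw [hG, hnodd]
    | zero => intro y; simp
    | add a b _ _ ha hb =>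
      intro y
      rw [Pi.add_apply, Pi.add_apply, ha y, hb y]
      ring
    | smul r a _ ha =>
      intro y
      rw [Pi.smul_apply, Pi.smul_apply, ha y, smul_neg]
  have hWst : ∀ g : G, ∀ m ∈ W, (fun x => m (g • x)) ∈ W := by
    intro g m hm
    induction hm using Submodule.span_induction with
    | mem m hm =>
      obtain ⟨h, rfl⟩ := hm
      refine Submodule.subset_span ⟨g⁻¹ * h, ?_⟩
      funext y
      change n ((g⁻¹ * h)⁻¹ • y) = n (h⁻¹ • g • y)
      rw [mul_inv_rev, inv_inv, mul_smul]
    | zero => exact W.zero_mem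
    | add a b _ _ ha hb => exact W.add_mem ha hb
    | smul r a _ ha => exact W.smul_mem r ha
  have hWall : ∀ m, OddFun inv m → m ∈ W := by
    rcases hirr W hWodd hWst with h | h
    · exfalso
      have h1 : tr 1 ∈ W := Submodule.subset_span ⟨1, rfl⟩
      rw [h, Submodule.mem_bot] at h1
      have h2 := congrFun h1 x
      change n ((1 : G)⁻¹ • x) = 0 at h2
      rw [inv_one, one_smul, hnx] at h2
      exact one_ne_zero h2
    · exact h
  -- a basis inside of the set of the translates
  obtain ⟨B, hB1, hB2, hB3⟩ := exists_linearIndependent ℚ (Set.range tr)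
  have hBfin : Finite B := (hfin.subset hB1).to_subtype
  have _ : Fintype B := Fintype.ofFinite B
  have hcB : Module.finrank ℚ W = Fintype.card B := by
    have h1 : W = Submodule.span ℚ (Set.range ((↑) : B → (E → ℚ))) := by
      rw [Subtype.range_coe, hB2]
    rw [h1]
    exact finrank_span_eq_card hB3
  have hneg : ∀ m ∈ Set.range tr, -m ∈ Set.range tr := by
    rintro _ ⟨g, rfl⟩
    refine ⟨g * c⁻¹, ?_⟩
    funext y
    change n ((g * c⁻¹)⁻¹ • y) = -n (g⁻¹ • y)
    rw [mul_inv_rev, inv_inv, mul_smul, hc, hnodd]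
  let f : B ⊕ B → Set.range tr := Sum.elim (fun b => ⟨b.1, hB1 b.2⟩)
    (fun b => ⟨-b.1, hneg _ (hB1 b.2)⟩)
  have hpm : ∀ b b' : B, (b.1 : E → ℚ) ≠ -b'.1 := by
    intro b b' h
    have h1 := Fintype.linearIndependent_iff.1 hB3
      (fun z => (if z = b then 1 else 0) + (if z = b' then 1 else 0)) (by
        simp only [add_smul, ite_smul, one_smul, zero_smul, Finset.sum_add_distrib,
          Finset.sum_ite_eq', Finset.mem_univ, if_true]
        rw [h]
        exact neg_add_cancel _) b
    simp only [if_true] at h1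
    by_cases hbb : b = b'
    · rw [if_pos hbb] at h1
      norm_num at h1
    · rw [if_neg hbb] at h1
      norm_num at h1
  have hfinj : Function.Injective f := by
    rintro (b | b) (b' | b') h
    · have h1 : (f (Sum.inl b)).1 = (f (Sum.inl b')).1 := congrArg Subtype.val h
      have h2 : b = b' := Subtype.ext h1
      rw [h2]
    · have h1 : (f (Sum.inl b)).1 = (f (Sum.inr b')).1 := congrArg Subtype.val h
      exact absurd h1 (hpm b b')
    · have h1 : (f (Sum.inr b)).1 = (f (Sum.inl b')).1 := congrArg Subtype.val h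
      exact absurd h1.symm (hpm b' b)
    · have h1 : (f (Sum.inr b)).1 = (f (Sum.inr b')).1 := congrArg Subtype.val h
      have h2 : b = b' := Subtype.ext (neg_injective h1)
      rw [h2]
  have h5 := Nat.card_le_card_of_injective f hfinj
  rw [Nat.card_sum, Nat.card_eq_fintype_card] at h5
  have h6 := card_le_odd inv hinv hne W hWall
  rw [hcB] at h6
  omega

end

end Pool.Agent.Y137.MV
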