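import Mathlib
import Pool.Agent.Y137.MV.Defs
import Pool.Agent.Y137.MV.Odd
import Pool.Agent.Y137.MV.Comp

/-!
# Criteria for maximal angle rank and for the condition on the eigenvalues
-/

set_option linter.unusedSectionVars false

namespace Pool.Agent.Y137.MV

open NumberField Module TensorProduct IntermediateField
open Pool.Agent.H204R3.CM Pool.Agent.H204R3.SP Pool.Agent.H204R3.GP

noncomputable section

section transfer

variable {L : Type*} [Field L] [NumberField L] [IsGalois ℚ L] (j : L →+* ℂ)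

/-- Transfer of the irreducibility to embeddings into a Galois extension. -/
theorem irr_transfer {F : Type*} [Field F] [NumberField F] [IsCMField F]
    (h : ∀ ψ : F →+* ℂ, ∃ φ : F →+* L, j.comp φ = ψ) (hirr : OddIrreducible F) :
    IrrOdd (E := F →+* L) (L ≃ₐ[ℚ] L) cbar := by
  intro W hW1 hW2
  let J : (F →+* L) ≃ (F →+* ℂ) := embEquiv j h
  have hJ : ∀ φ, J φ = j.comp φ := fun φ => rfl
  let A : ((F →+* ℂ) → ℚ) →ₗ[ℚ] ((F →+* L) → ℚ) :=
    { toFun := fun n φ => n (J φ)
      map_add' := fun _ _ => rfl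
      map_smul' := fun _ _ => rfl }
  have hAodd : ∀ n, OddFun cbar (A n) → IsOdd n := by
    intro n hn ψ
    obtain ⟨φ, rfl⟩ := h ψ
    have h1 := hn φ
    change n (j.comp (cbar φ)) = -n (j.comp φ) at h1
    rwa [comp_cbar] at h1
  have h1 := hirr (W.comap A) (fun n hn => hAodd n (hW1 _ hn)) (by
    intro τ n hn
    obtain ⟨σ, hσ⟩ := H194R3.CM.exists_restrict j (τ : ℂ →+* ℂ)
    have h2 := hW2 σ _ hn
    have h3 : A (fun φ => n ((τ : ℂ →+* ℂ).comp φ)) = fun x => A n (σ • x) := by
      funext φ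
      change n ((τ : ℂ →+* ℂ).comp (j.comp φ)) = n (j.comp (σ • φ))
      rw [H194R3.CM.comp_smul_of_restrict j _ σ hσ]
    rw [Submodule.mem_comap, h3]
    exact h2)
  have hsurj : ∀ m : (F →+* L) → ℚ, A (fun ψ => m (J.symm ψ)) = m := by
    intro m
    funext φ
    change m (J.symm (J φ)) = m φ
    rw [Equiv.symm_apply_apply]
  rcases h1 with h1 | h1
  · left
    rw [Submodule.eq_bot_iff]
    intro m hm
    have h2 : (fun ψ => m (J.symm ψ)) ∈ W.comap A := by
      rw [Submodule.mem_comap, hsurj]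
      exact hm
    rw [h1, Submodule.mem_bot] at h2
    rw [← hsurj m, h2, map_zero]
  · right
    intro m hm
    have h2 := h1 (fun ψ => m (J.symm ψ)) (hAodd _ (by rw [hsurj]; exact hm))
    rw [Submodule.mem_comap, hsurj] at h2
    exact h2

theorem unrel_transfer {F F' : Type*} [Field F] [NumberField F] [IsCMField F]
    [Field F'] [NumberField F'] [IsCMField F']
    (h : ∀ ψ : F →+* ℂ, ∃ φ : F →+* L, j.comp φ = ψ)
    (h' : ∀ ψ : F' →+* ℂ, ∃ φ : F' →+* L, j.comp φ = ψ) (hun : Unrelated F F') :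
    UnrelOdd (E := F →+* L) (E' := F' →+* L) (L ≃ₐ[ℚ] L) cbar cbar := by
  intro T hT1 hT2 n hn
  let J : (F →+* L) ≃ (F →+* ℂ) := embEquiv j h
  let J' : (F' →+* L) ≃ (F' →+* ℂ) := embEquiv j h'
  let A : ((F →+* ℂ) → ℚ) →ₗ[ℚ] ((F →+* L) → ℚ) :=
    { toFun := fun n φ => n (J φ)
      map_add' := fun _ _ => rfl
      map_smul' := fun _ _ => rfl }
  let B : ((F' →+* L) → ℚ) →ₗ[ℚ] ((F' →+* ℂ) → ℚ) :=
    { toFun := fun n φ => n (J'.symm φ)
      map_add' := fun _ _ => rfl
      map_smul' := fun _ _ => rfl }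
  have hJ's : ∀ φ : F' →+* L, J'.symm (j.comp φ) = φ := fun φ => J'.symm_apply_apply φ
  have h1 := hun (B.comp (T.comp A)) (by
    intro τ m ψ
    obtain ⟨φ, rfl⟩ := h' ψ
    obtain ⟨σ, hσ⟩ := H194R3.CM.exists_restrict j (τ : ℂ →+* ℂ)
    change T (A (fun φ => m ((τ : ℂ →+* ℂ).comp φ))) (J'.symm (j.comp φ)) =
      T (A m) (J'.symm ((τ : ℂ →+* ℂ).comp (j.comp φ)))
    rw [hJ's, ← H194R3.CM.comp_smul_of_restrict j _ σ hσ, hJ's, ← hT1]
    have e2 : (A (fun φ => m ((τ : ℂ →+* ℂ).comp φ))) = fun y => A m (σ • y) := by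
      funext ψ
      change m ((τ : ℂ →+* ℂ).comp (j.comp ψ)) = m (j.comp (σ • ψ))
      rw [H194R3.CM.comp_smul_of_restrict j _ σ hσ]
    rw [e2]) (by
    intro m ψ
    obtain ⟨φ, rfl⟩ := h' ψ
    change T (A m) (J'.symm (ComplexEmbedding.conjugate (j.comp φ))) =
      -T (A m) (J'.symm (j.comp φ))
    rw [← comp_cbar, hJ's, hJ's]
    exact hT2 _ φ) (fun ψ => n (J.symm ψ)) (by
    intro ψ
    obtain ⟨φ, rfl⟩ := h ψ
    change n (J.symm (ComplexEmbedding.conjugate (j.comp φ))) = -n (J.symm (j.comp φ))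
    rw [← comp_cbar]
    have e1 : ∀ φ : F →+* L, J.symm (j.comp φ) = φ := fun φ => J.symm_apply_apply φ
    rw [e1, e1]
    exact hn φ)
  funext φ
  have h2 := congrFun h1 (j.comp φ)
  change T (A (fun ψ => n (J.symm ψ))) (J'.symm (j.comp φ)) = 0 at h2
  rw [hJ's] at h2
  have h3 : A (fun ψ => n (J.symm ψ)) = n := by
    funext φ
    change n (J.symm (J φ)) = n φ
    rw [Equiv.symm_apply_apply]
  rw [h3] at h2
  exact h2

end transfer

/-- Irreducibility and the existence of a slope different from `1 / 2` imply that there are no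
multiplicative relations. -/
theorem neat_core {p : ℕ} [Fact p.Prime] {a : ℕ} {ι : Type*} [Fintype ι] {F : ι → Type*}
    [∀ i, Field (F i)] [∀ i, NumberField (F i)] [∀ i, IsCMField (F i)] {π : ∀ i, F i}
    {L : Type*} [Field L] [NumberField L] [IsGalois ℚ L] (j : L →+* ℂ)
    (h : ∀ i, ∀ ψ : F i →+* ℂ, ∃ φ : F i →+* L, j.comp φ = ψ) (jp : L →+* PadicAlgCl p)
    (hw : ∀ i, π i * IsCMField.complexConj (F i) (π i) = (p : F i) ^ a)
    (hns : ∀ i, NotSupersingular p a (π i))
    (hirr : ∀ i, IrrOdd (E := F i →+* L) (L ≃ₐ[ℚ] L) cbar)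
    (hun : ∀ i i', i ≠ i' → UnrelOdd (E := F i →+* L) (E' := F i' →+* L) (L ≃ₐ[ℚ] L) cbar cbar) :
    Neat p a π L := by
  classical
  intro m M hM I hprod y
  have h0 := norm_q_pos p a
  set Q : ℝ := ‖(p : PadicAlgCl p) ^ a‖ with hQ
  let X := Σ i, (F i →+* L)
  let u : X → ℝ := fun x => 2 * Real.log ‖jp (val π x)‖ - Real.log Q
  have hne : ∀ x : X, ‖jp (val π x)‖ ≠ 0 := by
    intro x h1
    rw [norm_eq_zero] at h1
    have h2 := val_bar (L := L) hw x
    have h3 : val π x = 0 := jp.injective (by rw [h1, map_zero])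
    rw [h3, zero_mul] at h2
    exact pow_ne_zero a (Nat.cast_ne_zero.2 (Fact.out : p.Prime).ne_zero) h2.symm
  have hua : ∀ x, u (bar x) = -u x := by
    intro x
    have h1 := congrArg (fun z => Real.log ‖jp z‖) (val_bar (L := L) hw x)
    simp only [map_mul, norm_mul, map_pow, map_natCast] at h1
    rw [Real.log_mul (hne _) (hne _)] at h1
    simp only [u, hQ]
    linarith
  let c : X → ℝ := fun y => ((Finset.univ.filter (fun l => I l = y)).card : ℝ) -
    ((Finset.univ.filter (fun l => I l = bar y)).card : ℝ)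
  have hcount : ∀ E : X → ℝ,
      ∑ y, ((Finset.univ.filter (fun l => I l = y)).card : ℝ) * E y = ∑ l, E (I l) := by
    intro E
    have h2 : ∀ y, ((Finset.univ.filter (fun l => I l = y)).card : ℝ) * E y =
        ∑ l, if I l = y then E y else 0 := by
      intro y
      rw [← Finset.sum_filter, Finset.sum_const, nsmul_eq_mul]
    rw [Finset.sum_congr rfl (fun y _ => h2 y), Finset.sum_comm]
    refine Finset.sum_congr rfl fun l _ => ?_
    rw [Finset.sum_ite_eq, if_pos (Finset.mem_univ _)]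
  have hrel : ∀ σ : L ≃ₐ[ℚ] L, ∑ y, c y * u (σ • y) = 0 := by
    intro σ
    have h1 := log_relation jp hw hM I hprod σ
    have h2 : ∀ y : X, c y * u (σ • y) =
        ((Finset.univ.filter (fun l => I l = y)).card : ℝ) * u (σ • y) -
        ((Finset.univ.filter (fun l => I l = bar y)).card : ℝ) * u (σ • y) := by
      intro y
      simp only [c]
      ring
    rw [Finset.sum_congr rfl (fun y _ => h2 y), Finset.sum_sub_distrib,
      hcount (fun y => u (σ • y))]
    have h3 : ∑ y : X, ((Finset.univ.filter (fun l => I l = bar y)).card : ℝ) * u (σ • y) =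
        ∑ y : X, ((Finset.univ.filter (fun l => I l = y)).card : ℝ) * u (σ • bar y) := by
      let B : X ≃ X := ⟨bar, bar, bar_bar, bar_bar⟩
      rw [← Equiv.sum_comp B]
      refine Finset.sum_congr rfl fun y _ => ?_
      change ((Finset.univ.filter (fun l => I l = bar (bar y))).card : ℝ) * u (σ • bar y) = _
      rw [bar_bar]
    have h4 : ∀ l, u (σ • bar (I l)) = -u (σ • I l) := fun l => hua (σ • I l)
    have h5 : ∑ l, u (σ • I l) = 0 := h1
    rw [h3, hcount (fun y => u (σ • bar y)), Finset.sum_congr rfl (fun l _ => h4 l),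
      Finset.sum_neg_distrib, h5]
    norm_num
  -- the space of relations
  let S : Submodule ℚ (∀ i, (F i →+* L) → ℚ) :=
    { carrier := {d | (∀ i, OddFun cbar (d i)) ∧
        ∀ σ : L ≃ₐ[ℚ] L, ∑ y : X, (d y.1 y.2 : ℝ) * u (σ • y) = 0}
      zero_mem' := ⟨fun i x => by simp, fun σ => by simp⟩
      add_mem' := fun {a b} ha hb => ⟨fun i x => by
          rw [Pi.add_apply, Pi.add_apply, Pi.add_apply, ha.1 i x, hb.1 i x]
          ring, fun σ => by
          have h1 := congrArg₂ (fun x y : ℝ => x + y) (ha.2 σ) (hb.2 σ)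
          simp only [add_zero] at h1
          rw [← h1, ← Finset.sum_add_distrib]
          refine Finset.sum_congr rfl fun y _ => ?_
          rw [Pi.add_apply, Pi.add_apply, Rat.cast_add]
          ring⟩
      smul_mem' := fun r {a} ha => ⟨fun i x => by
          rw [Pi.smul_apply, Pi.smul_apply, Pi.smul_apply, ha.1 i x, smul_neg], fun σ => by
          rw [← mul_zero (r : ℝ), ← ha.2 σ, Finset.mul_sum]
          refine Finset.sum_congr rfl fun y _ => ?_
          rw [Pi.smul_apply, Pi.smul_apply, smul_eq_mul, Rat.cast_mul]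
          ring⟩ }
  have hSbot : S = ⊥ := by
    by_contra hS
    obtain ⟨i, hi⟩ := core_irr (E := fun i => (F i →+* L)) (G := L ≃ₐ[ℚ] L) (fun i => cbar)
      (fun i x => cbar_cbar x) (fun g i x => rfl)
      hirr hun S (fun d hd => hd.1)
      (fun g d hd => ⟨fun i x => hd.1 i (g • x), fun σ => by
        have h1 := hd.2 (σ * g⁻¹)
        rw [← h1]
        refine Fintype.sum_equiv (MulAction.toPerm g) _ _ fun y => ?_
        change _ = (d y.1 (g • y.2) : ℝ) * u ((σ * g⁻¹) • (g • y))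
        rw [← mul_smul, mul_assoc, inv_mul_cancel, mul_one]⟩) hS
    obtain ⟨τ, hτ⟩ := hns i
    obtain ⟨φ, hφ⟩ := exists_factor j (h i) jp τ
    -- the slope of `φ` is not zero
    have hu : u ⟨i, φ⟩ ≠ 0 := by
      intro h1
      apply hτ
      have h2 : ‖τ (π i)‖ = ‖jp (val π (⟨i, φ⟩ : X))‖ := by
        rw [← hφ]
        rfl
      have h3 : 2 * Real.log ‖jp (val π (⟨i, φ⟩ : X))‖ - Real.log Q = 0 := h1
      rw [h2]
      have h4 : Real.log (‖jp (val π (⟨i, φ⟩ : X))‖ ^ 2) = Real.log Q := by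
        rw [Real.log_pow]
        push_cast
        linarith
      have h5 : 0 < ‖jp (val π (⟨i, φ⟩ : X))‖ ^ 2 :=
        pow_pos (norm_pos_iff.2 (norm_ne_zero_iff.1 (hne _))) 2
      exact Real.log_injOn_pos h5 h0 h4
    let n : (F i →+* L) → ℚ := fun ψ => (if ψ = φ then 1 else 0) - (if ψ = cbar φ then 1 else 0)
    have hn : OddFun cbar n := by
      intro ψ
      have e1 : (cbar ψ = φ) ↔ (ψ = cbar φ) := by
        constructor
        · intro h
          rw [← h, cbar_cbar]
        · intro h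
          rw [h, cbar_cbar]
      have e2 : (cbar ψ = cbar φ) ↔ (ψ = φ) := by
        constructor
        · intro h
          rw [← cbar_cbar ψ, h, cbar_cbar]
        · intro h
          rw [h]
      simp only [n, e1, e2]
      ring
    have h1 := (hi n hn).2 1
    rw [Fintype.sum_sigma, Finset.sum_eq_single i] at h1
    · simp only [Pi.single_eq_same, one_smul] at h1
      have h2 : ∀ ψ : F i →+* L, ((n ψ : ℚ) : ℝ) * u ⟨i, ψ⟩ =
          (if ψ = φ then u ⟨i, φ⟩ else 0) - (if ψ = cbar φ then u ⟨i, cbar φ⟩ else 0) := by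
        intro ψ
        simp only [n]
        by_cases h3 : ψ = φ
        · subst h3
          by_cases h4 : ψ = cbar ψ
          · exact absurd h4.symm (cbar_ne ψ)
          · rw [if_pos rfl, if_neg h4, if_pos rfl, if_neg h4]
            norm_num
        · by_cases h4 : ψ = cbar φ
          · subst h4
            rw [if_neg h3, if_pos rfl, if_neg h3, if_pos rfl]
            push_cast
            ring
          · rw [if_neg h3, if_neg h4, if_neg h3, if_neg h4]
            norm_num
      rw [Finset.sum_congr rfl (fun ψ _ => h2 ψ), Finset.sum_sub_distrib,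
        Finset.sum_ite_eq', Finset.sum_ite_eq', if_pos (Finset.mem_univ _),
        if_pos (Finset.mem_univ _)] at h1
      have h3 : u ⟨i, cbar φ⟩ = -u ⟨i, φ⟩ := hua ⟨i, φ⟩
      rw [h3] at h1
      apply hu
      linarith
    · intro i' _ hi'
      refine Finset.sum_eq_zero fun ψ _ => ?_
      rw [Pi.single_eq_of_ne hi']
      simp
    · intro h
      exact absurd (Finset.mem_univ _) h
  -- the discrepancy function
  let d : ∀ i, (F i →+* L) → ℚ := fun i φ =>
    ((Finset.univ.filter (fun l => I l = ⟨i, φ⟩)).card : ℚ) -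
    ((Finset.univ.filter (fun l => I l = bar ⟨i, φ⟩)).card : ℚ)
  have hdc : ∀ y : X, ((d y.1 y.2 : ℚ) : ℝ) = c y := by
    intro y
    simp only [d, c]
    push_cast
    rfl
  have hdS : d ∈ S := by
    refine ⟨fun i φ => ?_, fun σ => ?_⟩
    · simp only [d]
      change ((Finset.univ.filter (fun l => I l = bar ⟨i, φ⟩)).card : ℚ) -
        ((Finset.univ.filter (fun l => I l = bar (bar ⟨i, φ⟩))).card : ℚ) = _
      rw [bar_bar]
      ring
    · rw [← hrel σ]
      exact Finset.sum_congr rfl fun y _ => by rw [hdc]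
  rw [hSbot, Submodule.mem_bot] at hdS
  have h9 : d y.1 y.2 = 0 := by rw [hdS]; rfl
  simp only [d] at h9
  have h10 : ((Finset.univ.filter (fun l => I l = y)).card : ℚ) =
    ((Finset.univ.filter (fun l => I l = bar y)).card : ℚ) := sub_eq_zero.1 h9
  exact_mod_cast h10

theorem neat_of_irreducible {p : ℕ} [Fact p.Prime] {a : ℕ} {ι : Type*} [Fintype ι] {F : ι → Type*}
    [∀ i, Field (F i)] [∀ i, NumberField (F i)] [∀ i, IsCMField (F i)] {π : ∀ i, F i}
    {L : Type*} [Field L] [NumberField L] [IsGalois ℚ L] (j : L →+* ℂ)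
    (h : ∀ i, ∀ ψ : F i →+* ℂ, ∃ φ : F i →+* L, j.comp φ = ψ) (jp : L →+* PadicAlgCl p)
    (hw : ∀ i, π i * IsCMField.complexConj (F i) (π i) = (p : F i) ^ a)
    (hns : ∀ i, NotSupersingular p a (π i)) (hirr : ∀ i, OddIrreducible (F i))
    (hun : ∀ i i', i ≠ i' → Unrelated (F i) (F i')) : Neat p a π L :=
  neat_core j h jp hw hns (fun i => irr_transfer j (h i) (hirr i))
    (fun i i' hii => unrel_transfer j (h i) (h i') (hun i i' hii))

/-- Maximal angle rank, for embeddings into a Galois extension. -/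
theorem neat_of_angle {p : ℕ} [Fact p.Prime] {a : ℕ} {ι : Type*} [Fintype ι] {F : ι → Type*}
    [∀ i, Field (F i)] [∀ i, NumberField (F i)] [∀ i, IsCMField (F i)] {π : ∀ i, F i}
    {L : Type*} [Field L] [NumberField L] [IsGalois ℚ L] (j : L →+* ℂ)
    (hang : MaximalAngleRank (p ^ a) π) : Neat p a π L := by
  classical
  intro m M hM I hprod y
  let J : (Σ i, (F i →+* L)) → Σ i, (F i →+* ℂ) := fun x => ⟨x.1, j.comp x.2⟩
  have hJ : Function.Injective J := by
    rintro ⟨a, φ⟩ ⟨b, ψ⟩ h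
    simp only [J, Sigma.mk.injEq] at h
    obtain ⟨rfl, h⟩ := h
    rw [H194R3.CM.comp_injective j (eq_of_heq h)]
  let n : (Σ i, (F i →+* ℂ)) → ℤ := fun x =>
    (M : ℤ) * ((Finset.univ.filter (fun l => J (I l) = x)).card : ℤ)
  have h1 : ∏ x, (x.2 (π x.1)) ^ n x = ((p ^ a : ℕ) : ℂ) ^ ((m * M : ℕ) : ℤ) := by
    have h2 : ∀ x : Σ i, (F i →+* ℂ), (x.2 (π x.1)) ^ n x =
        ∏ l ∈ Finset.univ.filter (fun l => J (I l) = x), (j (val π (I l))) ^ M := by
      intro x
      have h3 : ∀ l ∈ Finset.univ.filter (fun l => J (I l) = x),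
          (j (val π (I l))) ^ M = (x.2 (π x.1)) ^ M := by
        intro l hl
        rw [← (Finset.mem_filter.1 hl).2]
        rfl
      rw [Finset.prod_congr rfl h3, Finset.prod_const, ← pow_mul]
      simp only [n]
      rw [← Nat.cast_mul, zpow_natCast]
    rw [Finset.prod_congr rfl (fun x _ => h2 x)]
    rw [Finset.prod_fiberwise (s := Finset.univ) (g := fun l => J (I l))
      (f := fun l => (j (val π (I l))) ^ M)]
    have h3 := congrArg j hprod
    rw [map_prod] at h3
    simp only [map_pow, map_natCast] at h3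
    rw [h3, zpow_natCast]
    push_cast
    rfl
  have h2 := hang _ n h1 y.1 (j.comp y.2)
  simp only [n] at h2
  have h3 := mul_left_cancel₀ (Nat.cast_ne_zero.2 hM.ne' : (M : ℤ) ≠ 0) h2
  have h4 : (Finset.univ.filter (fun l => I l = y)).card =
      (Finset.univ.filter (fun l => J (I l) = ⟨y.1, j.comp y.2⟩)).card := by
    congr 1
    ext l
    simp only [Finset.mem_filter, Finset.mem_univ, true_and]
    exact ⟨fun h => by rw [h], fun h => hJ h⟩
  have h5 : (Finset.univ.filter (fun l => I l = bar y)).card =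
      (Finset.univ.filter (fun l => J (I l) =
        ⟨y.1, ComplexEmbedding.conjugate (j.comp y.2)⟩)).card := by
    congr 1
    ext l
    simp only [Finset.mem_filter, Finset.mem_univ, true_and]
    have h6 : J (bar y) = ⟨y.1, ComplexEmbedding.conjugate (j.comp y.2)⟩ := by
      simp only [J, bar]
      rw [comp_cbar]
    rw [← h6]
    exact ⟨fun h => by rw [h], fun h => hJ h⟩
  rw [h4, h5]
  exact_mod_cast h3

/-- The condition on the eigenvalues, for one field. -/
theorem forces_of {p : ℕ} [Fact p.Prime] {a : ℕ} {ι : Type*} [Fintype ι] {F : ι → Type*}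
    [∀ i, Field (F i)] [∀ i, NumberField (F i)] [∀ i, IsCMField (F i)] {π : ∀ i, F i}
    {L : Type*} [Field L] [NumberField L] [IsGalois ℚ L] (j : L →+* ℂ)
    (h : ∀ i, ∀ ψ : F i →+* ℂ, ∃ φ : F i →+* L, j.comp φ = ψ)
    (hw : ∀ i, π i * IsCMField.complexConj (F i) (π i) = (p : F i) ^ a)
    (hneat : Neat p a π L) (β : L) (i : ι)
    (hf : (OddIrreducible (F i) ∧ (minpoly ℚ (j β)).natDegree < finrank ℚ (F i)) ∨
      ∀ φ : F i →+* ℂ, ∃ τ : ℂ →+* ℂ, τ (j β) = j β ∧ τ.comp φ = ComplexEmbedding.conjugate φ) :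
    Forces π β i := by
  classical
  intro K N I hN hβN φ
  have hσ : ∃ σ : L ≃ₐ[ℚ] L, σ β = β ∧ σ • φ = cbar φ := by
    rcases hf with ⟨h1, h2⟩ | h1
    · obtain ⟨c, hc⟩ := H194R3.CM.exists_restrict j (starRingEnd ℂ)
      have hcφ : ∀ ψ : F i →+* L, c • ψ = cbar ψ := by
        intro ψ
        apply H194R3.CM.comp_injective j
        rw [H194R3.CM.comp_smul_of_restrict j _ c hc, comp_cbar]
        rfl
      have horb : (MulAction.orbit (L ≃ₐ[ℚ] L) β) ⊆ (minpoly ℚ β).rootSet L := by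
        rintro _ ⟨g, rfl⟩
        rw [Polynomial.mem_rootSet]
        refine ⟨minpoly.ne_zero (Algebra.IsIntegral.isIntegral β), ?_⟩
        have h3 := Polynomial.aeval_algHom_apply (g : L →ₐ[ℚ] L) β (minpoly ℚ β)
        rw [minpoly.aeval, map_zero] at h3
        exact h3
      have hfin : Finite (MulAction.orbit (L ≃ₐ[ℚ] L) β) :=
        ((Polynomial.rootSet_finite _ _).subset horb).to_subtype
      have hmin : minpoly ℚ (j β) = minpoly ℚ β :=
        minpoly.algHom_eq (RingHom.equivRatAlgHom L ℂ j) j.injective β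
      refine core_deg (E := F i →+* L) cbar cbar_cbar cbar_ne (fun g x => rfl) c hcφ
        (irr_transfer j (h i) h1) β ?_ φ
      rw [card_emb j (h i)]
      refine lt_of_le_of_lt ?_ h2
      rw [hmin]
      have h3 : Nat.card (MulAction.orbit (L ≃ₐ[ℚ] L) β) ≤ Nat.card ((minpoly ℚ β).rootSet L) :=
        Nat.card_mono (Polynomial.rootSet_finite _ _) horb
      refine h3.trans ?_
      rw [Nat.card_coe_set_eq]
      exact Polynomial.ncard_rootSet_le _ _
    · obtain ⟨τ, hτ1, hτ2⟩ := h1 (j.comp φ)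
      obtain ⟨σ, hσ⟩ := H194R3.CM.exists_restrict j τ
      refine ⟨σ, ?_, ?_⟩
      · apply j.injective
        rw [hσ, hτ1]
      · apply H194R3.CM.comp_injective j
        rw [H194R3.CM.comp_smul_of_restrict j τ σ hσ, hτ2, comp_cbar]
  obtain ⟨σ, hσ1, hσ2⟩ := hσ
  exact balanced_of_aut hw hneat I hN hβN ⟨i, φ⟩ σ hσ1 (Sigma.ext rfl (heq_of_eq hσ2))

/-- A Galois extension which contains all embeddings of the fields and the roots of a polynomial. -/
theorem exists_galois_roots {ι : Type*} [Fintype ι] (E : ι → Type*) [∀ i, Field (E i)]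
    [∀ i, NumberField (E i)] (f : Polynomial ℚ) (hf : f ≠ 0) :
    ∃ (L : IntermediateField ℚ (AlgebraicClosure ℚ)) (_ : NumberField L) (_ : IsGalois ℚ L)
      (j : L →+* ℂ), (∀ i, ∀ ψ : E i →+* ℂ, ∃ φ : E i →+* L, j.comp φ = ψ) ∧
      ∀ α : ℂ, Polynomial.aeval α f = 0 → ∃ β : L, j β = α := by
  obtain ⟨L1, h1a, h1b, j1, h1⟩ := exists_galois E
  let K : IntermediateField ℚ ℂ := IntermediateField.adjoin ℚ (f.rootSet ℂ)
  have hK : FiniteDimensional ℚ K := by
    have _ : Finite (f.rootSet ℂ) := (Polynomial.rootSet_finite f ℂ).to_subtype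
    refine IntermediateField.finiteDimensional_adjoin fun x hx => ?_
    have h2 : IsAlgebraic ℚ x := ⟨f, hf, (Polynomial.mem_rootSet.1 hx).2⟩
    exact h2.isIntegral
  have hKN : NumberField K := NumberField.mk
  let E' : Bool → Type := fun b => if b then L1 else K
  let fld : ∀ b, Field (E' b) := fun b => by
    cases b
    · exact (inferInstance : Field K)
    · exact (inferInstance : Field L1)
  have nf : ∀ b, @NumberField (E' b) (fld b) := fun b => by
    cases b
    · exact hKN
    · exact h1a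
  obtain ⟨L, hLa, hLb, j, h2⟩ := exists_galois E'
  refine ⟨L, hLa, hLb, j, fun i ψ => ?_, fun α hα => ?_⟩
  · obtain ⟨φ1, hφ1⟩ := h1 i ψ
    obtain ⟨θ, hθ⟩ := h2 true j1
    refine ⟨θ.comp φ1, ?_⟩
    rw [← hφ1, ← hθ]
    rfl
  · obtain ⟨θ, hθ⟩ := h2 false (algebraMap K ℂ)
    have hαK : α ∈ K := IntermediateField.subset_adjoin ℚ _
      (Polynomial.mem_rootSet.2 ⟨hf, hα⟩)
    refine ⟨θ (⟨α, hαK⟩ : K), ?_⟩
    exact RingHom.congr_fun hθ (⟨α, hαK⟩ : K)

end

end Pool.Agent.Y137.MV
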