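import Mathlib
import Pool.Agent.Y137.MV.Odd

/-!
# Flips: irreducibility, and sums over orbits
-/

set_option linter.unusedSectionVars false

namespace Pool.Agent.Y137.MV

noncomputable section

/-- If every pair can be flipped, the odd functions are irreducible. -/
theorem irr_of_flips {E : Type*} [Fintype E] {G : Type*} [Group G] [MulAction G E]
    [MulAction.IsPretransitive G E] (inv : E → E) (hinv : ∀ x, inv (inv x) = x)
    (hne : ∀ x, inv x ≠ x) (hG : ∀ (g : G) (x : E), g • inv x = inv (g • x))
    (hflip : ∀ x : E, ∃ g : G, g • x = inv x ∧ ∀ y, y ≠ x → y ≠ inv x → g • y = y) :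
    IrrOdd G inv := by
  classical
  intro W hW1 hW2
  by_cases hbot : W = ⊥
  · exact Or.inl hbot
  refine Or.inr ?_
  obtain ⟨n, hn, hn0⟩ := Submodule.exists_mem_ne_zero_of_ne_bot hbot
  obtain ⟨x, hx⟩ := Function.ne_iff.1 hn0
  rw [Pi.zero_apply] at hx
  let e : E → E → ℚ := fun x y => (if y = x then 1 else 0) - (if y = inv x then 1 else 0)
  obtain ⟨g, hg1, hg2⟩ := hflip x
  have hg3 : g • inv x = x := by rw [hG, hg1, hinv]
  have hex : e x ∈ W := by
    have h1 : e x = (2 * n x)⁻¹ • (n - fun y => n (g • y)) := by
      funext y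
      rw [Pi.smul_apply, Pi.sub_apply, smul_eq_mul]
      simp only [e]
      by_cases h2 : y = x
      · subst h2
        rw [if_pos rfl, if_neg (hne y).symm, hg1, hW1 n hn y]
        field_simp
        ring
      · by_cases h3 : y = inv x
        · subst h3
          rw [if_neg (hne x), if_pos rfl, hg3, hW1 n hn x]
          field_simp
          ring
        · rw [if_neg h2, if_neg h3, hg2 y h2 h3]
          ring
    rw [h1]
    exact W.smul_mem _ (W.sub_mem hn (hW2 g n hn))
  have hey : ∀ y, e y ∈ W := by
    intro y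
    obtain ⟨h, hh⟩ := MulAction.exists_smul_eq G y x
    have h1 : e y = fun z => e x (h • z) := by
      funext z
      have e1 : (h • z = x) ↔ (z = y) := by
        rw [← hh, smul_left_cancel_iff]
      have e2 : (h • z = inv x) ↔ (z = inv y) := by
        rw [← hh, ← hG, smul_left_cancel_iff]
      simp only [e, e1, e2]
    rw [h1]
    exact hW2 h _ hex
  intro m hm
  have h1 : m = (2 : ℚ)⁻¹ • ∑ y, m y • e y := by
    funext z
    rw [Pi.smul_apply, Finset.sum_apply, smul_eq_mul]
    have h2 : ∀ y, (m y • e y) z = (if z = y then m y else 0) - (if z = inv y then m y else 0) := by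
      intro y
      rw [Pi.smul_apply, smul_eq_mul]
      simp only [e]
      split_ifs <;> ring
    rw [Finset.sum_congr rfl (fun y _ => h2 y), Finset.sum_sub_distrib, Finset.sum_ite_eq,
      if_pos (Finset.mem_univ _)]
    have h3 : ∀ y, (if z = inv y then m y else 0) = if inv z = y then m y else 0 := by
      intro y
      have e1 : (z = inv y) ↔ (inv z = y) := by
        constructor
        · intro h
          rw [h, hinv]
        · intro h
          rw [← h, hinv]
      simp only [e1]
    rw [Finset.sum_congr rfl (fun y _ => h3 y), Finset.sum_ite_eq, if_pos (Finset.mem_univ _),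
      hm z]
    ring
  rw [h1]
  exact W.smul_mem _ (W.sum_mem fun y _ => W.smul_mem _ (hey y))

/-- Sums over a group and sums over an orbit. -/
theorem orbit_sum {G : Type*} [Group G] [Fintype G] {Y : Type*} [MulAction G Y] (y : Y)
    [Fintype (MulAction.orbit G y)] (h : Y → ℝ) :
    ∃ s : ℕ, 0 < s ∧ Fintype.card G = s * Fintype.card (MulAction.orbit G y) ∧
      ∑ g : G, h (g • y) = s * ∑ z : MulAction.orbit G y, h z := by
  classical
  let s := (Finset.univ.filter (fun g : G => g • y = y)).card
  have hs : ∀ z : MulAction.orbit G y, (Finset.univ.filter (fun g : G => g • y = z)).card = s := by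
    rintro ⟨_, g0, rfl⟩
    refine Finset.card_bij (fun g _ => g0⁻¹ * g) (fun g hg => ?_)
      (fun g _ g' _ hgg => mul_left_cancel hgg) (fun g hg => ⟨g0 * g, ?_, ?_⟩)
    · rw [Finset.mem_filter] at hg ⊢
      refine ⟨Finset.mem_univ _, ?_⟩
      rw [mul_smul, hg.2]
      exact inv_smul_smul g0 y
    · rw [Finset.mem_filter] at hg ⊢
      exact ⟨Finset.mem_univ _, by rw [mul_smul, hg.2]⟩
    · rw [← mul_assoc, inv_mul_cancel, one_mul]
  have hspos : 0 < s := Finset.card_pos.2 ⟨1, by simp⟩
  have hfib : ∀ F : G → ℝ, ∑ g : G, F g = ∑ z : MulAction.orbit G y,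
      ∑ g ∈ Finset.univ.filter (fun g : G => g • y = z), F g := by
    intro F
    have h1 : ∀ z : MulAction.orbit G y, (Finset.univ.filter (fun g : G => g • y = z)) =
        Finset.univ.filter (fun g : G => (⟨g • y, g, rfl⟩ : MulAction.orbit G y) = z) := by
      intro z
      ext g
      simp [Subtype.ext_iff]
    simp only [h1]
    exact (Finset.sum_fiberwise (s := Finset.univ)
      (g := fun g : G => (⟨g • y, g, rfl⟩ : MulAction.orbit G y)) (f := F)).symm
  refine ⟨s, hspos, ?_, ?_⟩
  · have h1 := hfib (fun _ => 1)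
    simp only [Finset.sum_const, Finset.card_univ, hs, nsmul_eq_mul, mul_one] at h1
    have h2 : (Fintype.card G : ℝ) = ((s * Fintype.card (MulAction.orbit G y) : ℕ) : ℝ) := by
      rw [h1]
      push_cast
      ring
    exact_mod_cast h2
  · rw [hfib, Finset.mul_sum]
    refine Finset.sum_congr rfl fun z _ => ?_
    have h1 : ∀ g ∈ Finset.univ.filter (fun g : G => g • y = z), h (g • y) = h z := by
      intro g hg
      rw [(Finset.mem_filter.1 hg).2]
    rw [Finset.sum_congr rfl h1, Finset.sum_const, hs, nsmul_eq_mul]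

end

end Pool.Agent.Y137.MV
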