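import Mathlib
import Pool.Agent.Y137.MV.Defs
import Pool.Agent.Y137.MV.Flips
import Pool.Agent.Y137.MV.Comp
import Pool.Agent.Y137.MV.Criteria

/-!
# Eigenvalues of small width
-/

set_option linter.unusedSectionVars false

namespace Pool.Agent.Y137.MV

open NumberField Module TensorProduct IntermediateField
open Pool.Agent.H204R3.CM Pool.Agent.H204R3.SP Pool.Agent.H204R3.GP

noncomputable section

/-- The complex absolute value of the conjugates of a Weil number. -/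
theorem norm_val {p : ℕ} [Fact p.Prime] {a : ℕ} {ι : Type*} [Fintype ι] {F : ι → Type*}
    [∀ i, Field (F i)] [∀ i, NumberField (F i)] [∀ i, IsCMField (F i)] {π : ∀ i, F i}
    {L : Type*} [Field L] [NumberField L] [IsGalois ℚ L] (j : L →+* ℂ)
    (hw : ∀ i, π i * IsCMField.complexConj (F i) (π i) = (p : F i) ^ a)
    (x : Σ i, (F i →+* L)) : ‖j (val π x)‖ ^ 2 = (p : ℝ) ^ a := by
  have h1 := congrArg j (val_bar (L := L) hw x)
  have h2 : j (val π (bar x)) = (starRingEnd ℂ) (j (val π x)) := by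
    have h3 := comp_cbar j x.2
    have h4 := RingHom.congr_fun h3 (π x.1)
    rw [ComplexEmbedding.conjugate_coe_eq] at h4
    exact h4
  rw [map_mul, h2, Complex.mul_conj, map_pow, map_natCast] at h1
  have h3 : ((Complex.normSq (j (val π x)) : ℝ) : ℂ) = (((p : ℝ) ^ a : ℝ) : ℂ) := by
    rw [h1]
    push_cast
    rfl
  have h4 := Complex.ofReal_injective h3
  rw [← h4, Complex.normSq_eq_norm_sq]

theorem sum_le_of_le {α : Type*} (f : α → ℝ) (hf : ∀ x, 0 ≤ f x) {S T : Multiset α} (h : S ≤ T) :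
    (S.map f).sum ≤ (T.map f).sum := by
  obtain ⟨U, rfl⟩ := Multiset.le_iff_exists_add.1 h
  rw [Multiset.map_add, Multiset.sum_add]
  have h1 : 0 ≤ (U.map f).sum := by
    refine Multiset.sum_nonneg fun x hx => ?_
    obtain ⟨y, -, rfl⟩ := Multiset.mem_map.1 hx
    exact hf y
  linarith

/-- The flips, for embeddings into a Galois extension. -/
theorem flips_transfer {ι : Type*} {F : ι → Type*}
    [∀ i, Field (F i)] [∀ i, NumberField (F i)] [∀ i, IsCMField (F i)]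
    {L : Type*} [Field L] [NumberField L] [IsGalois ℚ L] (j : L →+* ℂ)
    (i : ι) (hfl : HasFlips F i) (ψ : F i →+* L) : ∃ g : L ≃ₐ[ℚ] L, g • ψ = cbar ψ ∧
      ∀ y : Σ i, (F i →+* L), y ≠ ⟨i, ψ⟩ → y ≠ bar ⟨i, ψ⟩ → g • y = y := by
  obtain ⟨τ, hτ1, hτ2⟩ := hfl (j.comp ψ)
  obtain ⟨σ, hσ⟩ := H194R3.CM.exists_restrict j τ
  refine ⟨σ, ?_, fun y hy1 hy2 => ?_⟩
  · apply H194R3.CM.comp_injective j
    rw [H194R3.CM.comp_smul_of_restrict j τ σ hσ, hτ1, comp_cbar]
  · have h1 := hτ2 ⟨y.1, j.comp y.2⟩ (fun h2 => hy1 (by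
      obtain ⟨i', ψ'⟩ := y
      simp only [Sigma.mk.injEq] at h2
      obtain ⟨rfl, h2⟩ := h2
      rw [H194R3.CM.comp_injective j (eq_of_heq h2)])) (fun h2 => hy2 (by
      obtain ⟨i', ψ'⟩ := y
      simp only [Sigma.mk.injEq] at h2
      obtain ⟨rfl, h2⟩ := h2
      have h3 := eq_of_heq h2
      rw [← comp_cbar] at h3
      rw [H194R3.CM.comp_injective j h3]
      rfl))
    obtain ⟨i', ψ'⟩ := y
    refine Sigma.ext rfl (heq_of_eq ?_)
    apply H194R3.CM.comp_injective j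
    exact (H194R3.CM.comp_smul_of_restrict j τ σ hσ ψ').trans h1

theorem flips_irr {ι : Type*} {F : ι → Type*}
    [∀ i, Field (F i)] [∀ i, NumberField (F i)] [∀ i, IsCMField (F i)]
    {L : Type*} [Field L] [NumberField L] [IsGalois ℚ L] (j : L →+* ℂ)
    (i : ι) (hfl : HasFlips F i) : IrrOdd (E := F i →+* L) (L ≃ₐ[ℚ] L) cbar := by
  refine irr_of_flips cbar cbar_cbar cbar_ne (fun g x => rfl) fun ψ => ?_
  obtain ⟨g, hg1, hg2⟩ := flips_transfer j i hfl ψ
  refine ⟨g, hg1, fun y hy1 hy2 => ?_⟩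
  have h1 := hg2 ⟨i, y⟩ (fun h2 => hy1 (eq_of_heq (Sigma.ext_iff.1 h2).2))
    (fun h2 => hy2 (eq_of_heq (Sigma.ext_iff.1 h2).2))
  exact eq_of_heq (Sigma.ext_iff.1 h1).2

theorem neat_of_flips {p : ℕ} [Fact p.Prime] {a : ℕ} {ι : Type*} [Fintype ι] {F : ι → Type*}
    [∀ i, Field (F i)] [∀ i, NumberField (F i)] [∀ i, IsCMField (F i)] {π : ∀ i, F i}
    {L : Type*} [Field L] [NumberField L] [IsGalois ℚ L] (j : L →+* ℂ)
    (h : ∀ i, ∀ ψ : F i →+* ℂ, ∃ φ : F i →+* L, j.comp φ = ψ) (jp : L →+* PadicAlgCl p)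
    (hw : ∀ i, π i * IsCMField.complexConj (F i) (π i) = (p : F i) ^ a)
    (hns : ∀ i, NotSupersingular p a (π i)) (hfl : ∀ i, HasFlips F i) : Neat p a π L := by
  refine neat_core j h jp hw hns (fun i => flips_irr j i (hfl i)) (fun i i' hii => ?_)
  intro T hT1 hT2 n hn
  funext x
  obtain ⟨g, hg1, hg2⟩ := flips_transfer j i' (hfl i') x
  have h1 : (fun y : F i →+* L => n (g • y)) = n := by
    funext y
    have h2 := hg2 ⟨i, y⟩ (fun h3 => hii (Sigma.ext_iff.1 h3).1)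
      (fun h3 => hii (Sigma.ext_iff.1 h3).1)
    have h3 : g • y = y := eq_of_heq (Sigma.ext_iff.1 h2).2
    rw [h3]
  have h2 := hT1 g n x
  rw [h1, hg1, hT2 n x] at h2
  change T n x = 0
  linarith

theorem forces_of_width {p : ℕ} [Fact p.Prime] {a : ℕ} {ι : Type*} [Fintype ι] {F : ι → Type*}
    [∀ i, Field (F i)] [∀ i, NumberField (F i)] [∀ i, IsCMField (F i)] {π : ∀ i, F i}
    {L : Type*} [Field L] [NumberField L] [IsGalois ℚ L] (j : L →+* ℂ)
    (h : ∀ i, ∀ ψ : F i →+* ℂ, ∃ φ : F i →+* L, j.comp φ = ψ) (jp : L →+* PadicAlgCl p)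
    (hw : ∀ i, π i * IsCMField.complexConj (F i) (π i) = (p : F i) ^ a)
    (hgen : ∀ i, ℚ⟮π i⟯ = ⊤)
    (hneat : Neat p a π L) (i : ι) (hfl : HasFlips F i) (β : L)
    (hwid : width p (minpoly ℚ (j β)) (Real.log ‖j β‖) <
      width p (minpoly ℚ (π i)) ((a : ℝ) * Real.log p / 2)) :
    Forces π β i := by
  classical
  intro K N I hN hβN φ
  by_contra hcon
  let X := Σ i, (F i →+* L)
  let x0 : X := ⟨i, φ⟩
  have hp0 : (0 : ℝ) < p := Nat.cast_pos.2 (Fact.out : p.Prime).pos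
  -- flips in the Galois group
  have hflipL := flips_transfer j i hfl
  have hirr := flips_irr (L := L) j i hfl
  -- many conjugates
  obtain ⟨c, hc⟩ := H194R3.CM.exists_restrict j (starRingEnd ℂ)
  have hcφ : ∀ ψ : F i →+* L, c • ψ = cbar ψ := by
    intro ψ
    apply H194R3.CM.comp_injective j
    rw [H194R3.CM.comp_smul_of_restrict j _ c hc, comp_cbar]
    rfl
  have hGfin : Fintype (L ≃ₐ[ℚ] L) := Fintype.ofFinite _
  have horbfin : Finite (MulAction.orbit (L ≃ₐ[ℚ] L) β) := by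
    have h1 : (MulAction.orbit (L ≃ₐ[ℚ] L) β).Finite := Set.finite_range _
    exact h1.to_subtype
  have _ : Fintype (MulAction.orbit (L ≃ₐ[ℚ] L) β) := Fintype.ofFinite _
  have hmany : Fintype.card (F i →+* L) ≤ Fintype.card (MulAction.orbit (L ≃ₐ[ℚ] L) β) := by
    by_contra hlt
    push Not at hlt
    obtain ⟨g, hg1, hg2⟩ := core_deg (E := F i →+* L) cbar cbar_cbar cbar_ne (fun g x => rfl) c
      hcφ hirr β (by rw [Nat.card_eq_fintype_card]; exact hlt) φ
    exact hcon (balanced_of_aut hw hneat I hN hβN x0 g hg1 (Sigma.ext rfl (heq_of_eq hg2)))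
  -- the deviations
  have h0 := norm_q_pos p a
  set Q : ℝ := ‖(p : PadicAlgCl p) ^ a‖ with hQ
  have hQlog : Real.log Q = -((a : ℝ) * Real.log p) := by
    rw [hQ, norm_pow, Real.log_pow]
    have h1 : ‖(p : PadicAlgCl p)‖ = (p : ℝ)⁻¹ := by
      have h2 := PadicAlgCl.norm_extends p (p : ℚ_[p])
      rw [Padic.norm_p] at h2
      rw [← h2]
      congr 1
    rw [h1, Real.log_inv]
    ring
  have hvne : ∀ x : X, ‖jp (val π x)‖ ≠ 0 := by
    intro x h1
    rw [norm_eq_zero] at h1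
    have h2 := val_bar (L := L) hw x
    have h3 : val π x = 0 := jp.injective (by rw [h1, map_zero])
    rw [h3, zero_mul] at h2
    exact pow_ne_zero a (Nat.cast_ne_zero.2 (Fact.out : p.Prime).ne_zero) h2.symm
  let u : X → ℝ := fun x => 2 * Real.log ‖jp (val π x)‖ - Real.log Q
  have hua : ∀ x, u (bar x) = -u x := by
    intro x
    have h1 := congrArg (fun z => Real.log ‖jp z‖) (val_bar (L := L) hw x)
    simp only [map_mul, norm_mul, map_pow, map_natCast] at h1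
    rw [Real.log_mul (hvne _) (hvne _)] at h1
    simp only [u, hQ]
    linarith
  let D : (L ≃ₐ[ℚ] L) → ℝ := fun σ => ∑ l, u (σ • I l)
  let n0 : ℝ := ((Finset.univ.filter (fun l => I l = x0)).card : ℝ) -
    ((Finset.univ.filter (fun l => I l = bar x0)).card : ℝ)
  have hn0 : 1 ≤ |n0| := by
    have h1 : (((Finset.univ.filter (fun l => I l = x0)).card : ℤ) -
      ((Finset.univ.filter (fun l => I l = bar x0)).card : ℤ)) ≠ 0 := by
      intro h2
      apply hcon
      have h3 := sub_eq_zero.1 h2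
      exact_mod_cast h3
    have h2 := Int.one_le_abs h1
    have h3 : ((1 : ℤ) : ℝ) ≤ ((|((Finset.univ.filter (fun l => I l = x0)).card : ℤ) -
      ((Finset.univ.filter (fun l => I l = bar x0)).card : ℤ)| : ℤ) : ℝ) := by exact_mod_cast h2
    rw [Int.cast_abs] at h3
    push_cast at h3
    exact h3
  have hcount : ∀ E : X → ℝ, ∑ l, E (I l) =
      ∑ y, ((Finset.univ.filter (fun l => I l = y)).card : ℝ) * E y := by
    intro E
    have h2 : ∀ y, ((Finset.univ.filter (fun l => I l = y)).card : ℝ) * E y =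
        ∑ l, if I l = y then E y else 0 := by
      intro y
      rw [← Finset.sum_filter, Finset.sum_const, nsmul_eq_mul]
    rw [Finset.sum_congr rfl (fun y _ => h2 y), Finset.sum_comm]
    refine Finset.sum_congr rfl fun l _ => ?_
    rw [Finset.sum_ite_eq, if_pos (Finset.mem_univ _)]
  obtain ⟨g, hg1, hg2⟩ := hflipL φ
  have hgx : g • x0 = bar x0 := Sigma.ext rfl (heq_of_eq hg1)
  have hgx' : g • bar x0 = x0 := by
    change bar (g • x0) = x0
    rw [hgx, bar_bar]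
  have hDg : ∀ σ, D σ - D (σ * g) = 2 * n0 * u (σ • x0) := by
    intro σ
    have h1 : D σ - D (σ * g) = ∑ l, (u (σ • I l) - u (σ • g • I l)) := by
      rw [Finset.sum_sub_distrib]
      simp only [D, mul_smul]
    rw [h1, hcount (fun y => u (σ • y) - u (σ • g • y)),
      ← Finset.add_sum_erase _ _ (Finset.mem_univ x0),
      ← Finset.add_sum_erase _ _ (Finset.mem_erase.2 ⟨bar_ne x0, Finset.mem_univ (bar x0)⟩)]
    have h2 : ∑ y ∈ (Finset.univ.erase x0).erase (bar x0),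
        ((Finset.univ.filter (fun l => I l = y)).card : ℝ) * (u (σ • y) - u (σ • g • y)) = 0 := by
      refine Finset.sum_eq_zero fun y hy => ?_
      rw [Finset.mem_erase, Finset.mem_erase] at hy
      rw [hg2 y hy.2.1 hy.1, sub_self, mul_zero]
    have h3 : u (σ • bar x0) = -u (σ • x0) := hua (σ • x0)
    rw [h2, hgx, hgx', h3]
    simp only [n0]
    ring
  have hsum1 : ∑ σ : L ≃ₐ[ℚ] L, |u (σ • x0)| ≤ ∑ σ : L ≃ₐ[ℚ] L, |D σ| := by
    have h1 : ∑ σ : L ≃ₐ[ℚ] L, |D (σ * g)| = ∑ σ : L ≃ₐ[ℚ] L, |D σ| :=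
      Fintype.sum_equiv (Equiv.mulRight g) _ _ fun σ => rfl
    have h2 : ∀ σ : L ≃ₐ[ℚ] L, 2 * |u (σ • x0)| ≤ |D σ| + |D (σ * g)| := by
      intro σ
      have h3 := abs_sub (D σ) (D (σ * g))
      rw [hDg σ, abs_mul, abs_mul, abs_two] at h3
      have h4 : |u (σ • x0)| ≤ |n0| * |u (σ • x0)| :=
        le_mul_of_one_le_left (abs_nonneg _) hn0
      linarith
    have h3 : ∑ σ : L ≃ₐ[ℚ] L, 2 * |u (σ • x0)| ≤ ∑ σ : L ≃ₐ[ℚ] L, (|D σ| + |D (σ * g)|) :=
      Finset.sum_le_sum fun σ _ => h2 σ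
    rw [← Finset.mul_sum, Finset.sum_add_distrib, h1] at h3
    linarith
  -- the deviation of the conjugates of `β`
  have hlogβ : ∀ σ : L ≃ₐ[ℚ] L, D σ = 2 * Real.log ‖jp (σ β)‖ - K * Real.log Q := by
    intro σ
    have h1 := congrArg (fun x => Real.log ‖jp (σ x)‖) hβN
    simp only [map_prod, map_pow, norm_prod, norm_pow (_ : PadicAlgCl p), Real.log_pow] at h1
    have h2 : Real.log (∏ l, ‖jp (σ (val π (I l)))‖ ^ N) =
        ∑ l, (N : ℝ) * Real.log ‖jp (σ (val π (I l)))‖ := by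
      rw [Real.log_prod]
      · exact Finset.sum_congr rfl fun l _ => Real.log_pow _ _
      · intro l _
        exact pow_ne_zero _ (hvne (σ • I l))
    rw [h2, ← Finset.mul_sum] at h1
    have hN0 : (N : ℝ) ≠ 0 := Nat.cast_ne_zero.2 hN.ne'
    have h3 := mul_left_cancel₀ hN0 h1
    simp only [D, u]
    rw [Finset.sum_sub_distrib, ← Finset.mul_sum, Finset.sum_const, Finset.card_univ,
      Fintype.card_fin, nsmul_eq_mul, h3]
    rfl
  have hlogj : Real.log ‖j β‖ = (K : ℝ) * ((a : ℝ) * Real.log p) / 2 := by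
    have h1 := congrArg (fun x => Real.log ‖j x‖) hβN
    simp only [map_prod, map_pow, norm_prod, norm_pow (_ : ℂ), Real.log_pow] at h1
    have hne : ∀ x : X, ‖j (val π x)‖ ≠ 0 := by
      intro x h2
      have h3 := norm_val j hw x
      rw [h2] at h3
      have h4 : (0 : ℝ) < (p : ℝ) ^ a := pow_pos hp0 a
      norm_num at h3
      linarith
    have hlog : ∀ x : X, Real.log ‖j (val π x)‖ = (a : ℝ) * Real.log p / 2 := by
      intro x
      have h3 := congrArg Real.log (norm_val j hw x)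
      rw [Real.log_pow, Real.log_pow] at h3
      push_cast at h3
      linarith
    have h2 : Real.log (∏ l, ‖j (val π (I l))‖ ^ N) =
        ∑ l : Fin K, (N : ℝ) * ((a : ℝ) * Real.log p / 2) := by
      rw [Real.log_prod]
      · exact Finset.sum_congr rfl fun l _ => by rw [Real.log_pow, hlog]
      · intro l _
        exact pow_ne_zero _ (hne _)
    rw [h2, ← Finset.mul_sum] at h1
    have hN0 : (N : ℝ) ≠ 0 := Nat.cast_ne_zero.2 hN.ne'
    have h3 := mul_left_cancel₀ hN0 h1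
    rw [h3, Finset.sum_const, Finset.card_univ, Fintype.card_fin, nsmul_eq_mul]
    ring
  have hDβ : ∀ σ : L ≃ₐ[ℚ] L, |D σ| = 2 * |Real.log ‖jp (σ β)‖ + Real.log ‖j β‖| := by
    intro σ
    rw [hlogβ, hQlog, hlogj, ← abs_two, ← abs_mul, abs_two]
    congr 1
    ring
  -- sums over orbits
  obtain ⟨s, hs0, hs1, hs2⟩ := orbit_sum (G := L ≃ₐ[ℚ] L) β
    (fun z => |Real.log ‖jp z‖ + Real.log ‖j β‖|)
  have _ : Fintype (MulAction.orbit (L ≃ₐ[ℚ] L) φ) := Fintype.ofFinite _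
  obtain ⟨s', hs'0, hs'1, hs'2⟩ := orbit_sum (G := L ≃ₐ[ℚ] L) φ
    (fun z : F i →+* L => |u ⟨i, z⟩|)
  have horbφ : ∀ z : F i →+* L, z ∈ MulAction.orbit (L ≃ₐ[ℚ] L) φ := by
    intro z
    obtain ⟨g, hg⟩ := MulAction.exists_smul_eq (L ≃ₐ[ℚ] L) φ z
    exact ⟨g, hg⟩
  let eφ : MulAction.orbit (L ≃ₐ[ℚ] L) φ ≃ (F i →+* L) :=
    ⟨fun z => z.1, fun z => ⟨z, horbφ z⟩, fun z => rfl, fun z => rfl⟩
  have hs'1' : Fintype.card (L ≃ₐ[ℚ] L) = s' * Fintype.card (F i →+* L) := by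
    rw [hs'1, Fintype.card_congr eφ]
  have hs'2' : ∑ σ : L ≃ₐ[ℚ] L, |u (σ • x0)| = s' * ∑ z : F i →+* L, |u ⟨i, z⟩| := by
    have h1 : ∑ z : MulAction.orbit (L ≃ₐ[ℚ] L) φ, |u ⟨i, z.1⟩| = ∑ z : F i →+* L, |u ⟨i, z⟩| :=
      Fintype.sum_equiv eφ _ _ fun z => rfl
    rw [← h1, ← hs'2]
    rfl
  have hβsum : ∑ σ : L ≃ₐ[ℚ] L, |D σ| =
      2 * (s * ∑ z : MulAction.orbit (L ≃ₐ[ℚ] L) β, |Real.log ‖jp z.1‖ + Real.log ‖j β‖|) := by
    rw [Finset.sum_congr rfl (fun σ _ => hDβ σ), ← Finset.mul_sum]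
    congr 1
  -- comparison with the widths
  have hwβ : ∑ z : MulAction.orbit (L ≃ₐ[ℚ] L) β, |Real.log ‖jp z.1‖ + Real.log ‖j β‖| ≤
      width p (minpoly ℚ (j β)) (Real.log ‖j β‖) := by
    have hmin : minpoly ℚ (j β) = minpoly ℚ β :=
      minpoly.algHom_eq (RingHom.equivRatAlgHom L ℂ j) j.injective β
    rw [hmin]
    unfold width
    let T : Finset (PadicAlgCl p) := Finset.univ.image
      (fun z : MulAction.orbit (L ≃ₐ[ℚ] L) β => jp z.1)
    have h1 : ∑ z : MulAction.orbit (L ≃ₐ[ℚ] L) β, |Real.log ‖jp z.1‖ + Real.log ‖j β‖| =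
        ∑ x ∈ T, |Real.log ‖x‖ + Real.log ‖j β‖| := by
      rw [Finset.sum_image]
      intro z _ z' _ hzz
      exact Subtype.ext (jp.injective hzz)
    have h2 : T.val ≤ (minpoly ℚ β).aroots (PadicAlgCl p) := by
      rw [Multiset.le_iff_subset T.nodup]
      intro x hx
      rw [Finset.mem_val, Finset.mem_image] at hx
      obtain ⟨⟨_, g, rfl⟩, -, rfl⟩ := hx
      rw [Polynomial.mem_aroots]
      refine ⟨minpoly.ne_zero (Algebra.IsIntegral.isIntegral β), ?_⟩
      let jg : L →ₐ[ℚ] PadicAlgCl p := RingHom.equivRatAlgHom L (PadicAlgCl p)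
        (jp.comp (g : L →+* L))
      have h3 := Polynomial.aeval_algHom_apply jg β (minpoly ℚ β)
      rw [minpoly.aeval, map_zero] at h3
      exact h3
    rw [h1]
    change (T.val.map _).sum ≤ _
    exact sum_le_of_le _ (fun _ => abs_nonneg _) h2
  have hwπ : 2 * width p (minpoly ℚ (π i)) ((a : ℝ) * Real.log p / 2) ≤
      ∑ z : F i →+* L, |u ⟨i, z⟩| := by
    have h1 : ∀ z : F i →+* L, |u ⟨i, z⟩| =
        2 * |Real.log ‖jp (z (π i))‖ + (a : ℝ) * Real.log p / 2| := by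
      intro z
      simp only [u]
      rw [hQlog, ← abs_two, ← abs_mul, abs_two]
      congr 1
      change 2 * Real.log ‖jp (z (π i))‖ - -((a : ℝ) * Real.log p) = _
      ring
    rw [Finset.sum_congr rfl (fun z _ => h1 z), ← Finset.mul_sum]
    refine mul_le_mul_of_nonneg_left ?_ (by norm_num)
    unfold width
    have hsep : ((minpoly ℚ (π i)).aroots (PadicAlgCl p)).Nodup :=
      Polynomial.nodup_aroots_iff_of_splits
        (minpoly.ne_zero (Algebra.IsIntegral.isIntegral (π i)))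
        (IsAlgClosed.splits _) |>.2 (minpoly.irreducible
          (Algebra.IsIntegral.isIntegral (π i))).separable
    have h2 : (minpoly ℚ (π i)).aroots (PadicAlgCl p) ≤
        (Finset.univ.image (fun z : F i →+* L => jp (z (π i)))).val := by
      rw [Multiset.le_iff_subset hsep]
      intro x hx
      rw [Finset.mem_val, Finset.mem_image]
      rw [Polynomial.mem_aroots] at hx
      -- the embedding which maps `π i` to `x`
      have hint : IsIntegral ℚ (π i) := Algebra.IsIntegral.isIntegral (π i)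
      let ψ0 : ℚ⟮π i⟯ →ₐ[ℚ] PadicAlgCl p :=
        (IntermediateField.adjoin.powerBasis hint).lift x (by
          rw [IntermediateField.adjoin.powerBasis_gen, IntermediateField.minpoly_gen]
          exact hx.2)
      have hψ0 : ψ0 (IntermediateField.AdjoinSimple.gen ℚ (π i)) = x := by
        exact (IntermediateField.adjoin.powerBasis hint).lift_gen x (by
          rw [IntermediateField.adjoin.powerBasis_gen, IntermediateField.minpoly_gen]
          exact hx.2)
      let e1 : F i ≃ₐ[ℚ] ℚ⟮π i⟯ :=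
        (IntermediateField.topEquiv (F := ℚ) (E := F i)).symm.trans
          (IntermediateField.equivOfEq (hgen i).symm)
      have he1 : e1 (π i) = IntermediateField.AdjoinSimple.gen ℚ (π i) := by
        apply Subtype.ext
        rfl
      obtain ⟨z, hz⟩ := exists_factor j (h i) jp
        ((ψ0 : ℚ⟮π i⟯ →+* PadicAlgCl p).comp (e1 : F i →+* ℚ⟮π i⟯))
      refine ⟨z, Finset.mem_univ _, ?_⟩
      have h4 := RingHom.congr_fun hz (π i)
      change jp (z (π i)) = ψ0 (e1 (π i)) at h4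
      rw [h4, he1, hψ0]
    refine (sum_le_of_le _ (fun _ => abs_nonneg _) h2).trans ?_
    change ∑ x ∈ Finset.univ.image (fun z : F i →+* L => jp (z (π i))),
      |Real.log ‖x‖ + (a : ℝ) * Real.log p / 2| ≤ _
    exact Finset.sum_image_le_of_nonneg (fun _ _ => abs_nonneg _)
  -- conclusion
  have hG0 : (0 : ℝ) < Fintype.card (L ≃ₐ[ℚ] L) := Nat.cast_pos.2 Fintype.card_pos
  have hS1 : (0 : ℝ) ≤ ∑ z : F i →+* L, |u ⟨i, z⟩| := Finset.sum_nonneg fun _ _ => abs_nonneg _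
  set A := ∑ z : MulAction.orbit (L ≃ₐ[ℚ] L) β, |Real.log ‖jp z.1‖ + Real.log ‖j β‖| with hA
  set B := ∑ z : F i →+* L, |u ⟨i, z⟩| with hB
  have e1 : (s' : ℝ) * B ≤ 2 * (s * A) := by
    rw [← hβsum, ← hs'2']
    exact hsum1
  have e2 : (Fintype.card (L ≃ₐ[ℚ] L) : ℝ) = s * Fintype.card (MulAction.orbit (L ≃ₐ[ℚ] L) β) := by
    rw [hs1]
    push_cast
    rfl
  have e3 : (Fintype.card (L ≃ₐ[ℚ] L) : ℝ) = s' * Fintype.card (F i →+* L) := by
    rw [hs'1']
    push_cast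
    rfl
  have e4 : (Fintype.card (F i →+* L) : ℝ) ≤ Fintype.card (MulAction.orbit (L ≃ₐ[ℚ] L) β) := by
    exact_mod_cast hmany
  set O : ℝ := ((Fintype.card (MulAction.orbit (L ≃ₐ[ℚ] L) β) : ℕ) : ℝ) with hO
  set H : ℝ := ((Fintype.card (F i →+* L) : ℕ) : ℝ) with hH
  set Gc : ℝ := ((Fintype.card (L ≃ₐ[ℚ] L) : ℕ) : ℝ) with hGc
  have e5 : Gc * B ≤ Gc * (2 * A) := by
    have hO0 : 0 ≤ O := Nat.cast_nonneg _
    have hs'r : (0 : ℝ) ≤ s' := Nat.cast_nonneg _
    calc Gc * B = (s' * B) * H := by rw [e3]; ring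
      _ ≤ (s' * B) * O := mul_le_mul_of_nonneg_left e4 (mul_nonneg hs'r hS1)
      _ ≤ (2 * (s * A)) * O := mul_le_mul_of_nonneg_right e1 hO0
      _ = Gc * (2 * A) := by rw [e2]; ring
  have e6 : B ≤ 2 * A := le_of_mul_le_mul_left e5 hG0
  linarith

end

end Pool.Agent.Y137.MV
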