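import Mathlib
import Pool.Agent.Y137.MV.Defs
import Pool.Agent.Y137.MV.Criteria
import Pool.Agent.Y137.MV.Width
import Pool.Agent.Y137.MV.AltM

/-!
# Tate classes on products of abelian varieties with arbitrary smooth varieties
-/

set_option linter.unusedSectionVars false

namespace Pool.Agent.Y137.MV

open NumberField Module TensorProduct IntermediateField
open Pool.Agent.H204R3.CM Pool.Agent.H204R3.SP Pool.Agent.H204R3.GP

noncomputable section

/-- The components of an alternating equivariant map are equivariant. -/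
theorem component_eqv {k : Type*} [Field k] {V : Type*} [AddCommGroup V] [Module k V]
    {M : Type*} [AddCommGroup M] [Module k M] {Γ : Type*} [Group Γ]
    {ρ : Representation k Γ V} {τ : Representation k Γ M} {κ : Type} {n : ℕ}
    {f : (Fin n → V) [⋀^κ]→ₗ[k] M} (hf : IsEquivariant ρ τ f) (c : κ → Fin n) :
    IsEqv ρ τ (f.toMultilinearMap.compLinearMap
      (fun l => LinearMap.single k (fun _ : Fin n => V) (c l))) := by
  obtain ⟨Δ, hΔ, hf⟩ := hf
  refine ⟨Δ, hΔ, fun s hs v => ?_⟩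
  have h1 := hf s hs (fun l => Pi.single (c l) (v l))
  change f (fun l => Pi.single (c l) (ρ s (v l))) = τ s (f (fun l => Pi.single (c l) (v l)))
  rw [← h1]
  congr 1
  funext l i
  by_cases hi : i = c l
  · subst hi
    rw [Pi.single_eq_same, Pi.single_eq_same]
  · rw [Pi.single_eq_of_ne hi, Pi.single_eq_of_ne hi, map_zero]

theorem main {k : Type*} [Field k] [CharZero k]
    {V : Type*} [AddCommGroup V] [Module k V] [FiniteDimensional k V]
    {M : Type*} [AddCommGroup M] [Module k M] [FiniteDimensional k M]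
    {Γ : Type*} [Group Γ] (ρ : Representation k Γ V) (τ : Representation k Γ M) (χ : Γ →* k)
    (ω : V →ₗ[k] V →ₗ[k] k) (halt : ∀ v, ω v v = 0) (hnd : ∀ u, (∀ v, ω v u = 0) → u = 0)
    (hωρ : ∀ s u v, ω (ρ s u) (ρ s v) = χ s * ω u v) (hss : FiniteIndexSemisimple ρ)
    {p : ℕ} [Fact p.Prime] {a : ℕ}
    {ι : Type*} [Fintype ι] {F : ι → Type*} [∀ i, Field (F i)] [∀ i, NumberField (F i)]
    [∀ i, IsCMField (F i)] {π : ∀ i, F i} (hgen : ∀ i, ℚ⟮π i⟯ = ⊤)
    (hw : ∀ i, π i * IsCMField.complexConj (F i) (π i) = (p : F i) ^ a)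
    (γ : Γ) (hχ : χ γ = (p : k) ^ a)
    (hγ : (ρ γ).charpoly = ∏ i, (minpoly ℚ (π i)).map (algebraMap ℚ k))
    {f : Polynomial ℚ} (hf0 : f ≠ 0) (hfγ : Polynomial.aeval (τ γ) (f.map (algebraMap ℚ k)) = 0)
    (hπ : MaximalAngleRank (p ^ a) π ∨ ((∀ i, HasOtherSlope p a (π i)) ∧
      (((∀ i, OddIrreducible (F i)) ∧ ∀ i i', i ≠ i' → Unrelated (F i) (F i')) ∨
        ∀ i, HasFlips F i)))
    (hf : ∀ α : ℂ, Polynomial.aeval α f = 0 → ∀ i, Separated p a π α i) :
    (∀ (n m : ℕ) (g : (Fin n → V) [⋀^Fin m × Fin 2]→ₗ[k] M), IsEquivariant ρ τ g →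
      g ∈ Submodule.span k {h | IsProduct ρ χ τ h}) ∧
    ∀ (n m : ℕ) (g : (Fin n → V) [⋀^Fin (2 * m + 1)]→ₗ[k] M), IsEquivariant ρ τ g → g = 0 := by
  classical
  obtain ⟨L, hLa, hLb, j, h, hroots⟩ := exists_galois_roots F f hf0
  let jp : L →ₐ[ℚ] PadicAlgCl p := IsAlgClosed.lift
  have hneat : Neat p a π L := by
    rcases hπ with h1 | ⟨h3, ⟨h1, h2⟩ | h1⟩
    · exact neat_of_angle j h1
    · exact neat_of_irreducible j h (jp : L →+* PadicAlgCl p) hw h3 h1 h2
    · exact neat_of_flips j h (jp : L →+* PadicAlgCl p) hw h3 h1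
  have hun : ∀ β : L, Polynomial.aeval β f = 0 → ∀ i, Forces π β i := by
    intro β hβ i
    have hα : Polynomial.aeval (j β) f = 0 := by
      have h1 := Polynomial.aeval_algHom_apply (RingHom.equivRatAlgHom L ℂ j) β f
      rw [hβ, map_zero] at h1
      exact h1
    rcases hf (j β) hα i with h1 | h1 | ⟨h1, h2⟩
    · exact forces_of j h hw hneat β i (Or.inl h1)
    · exact forces_of j h hw hneat β i (Or.inr h1)
    · exact forces_of_width j h (jp : L →+* PadicAlgCl p) hw hgen hneat i h1 β h2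
  have hss' : ∀ Δ : Subgroup Γ, Δ.FiniteIndex → SemiUnder (ρ '' (Δ : Set Γ)) := by
    intro Δ hΔ U hU
    obtain ⟨U', h1, h2⟩ := hss Δ hΔ U (fun s hs u hu => hU _ ⟨s, hs, rfl⟩ u hu)
    refine ⟨U', ?_, h1⟩
    rintro _ ⟨s, hs, rfl⟩ u hu
    exact h2 s hs u hu
  constructor
  · intro n m g hg
    have h1 := final_step ρ χ τ g hg (fun l => alt_of_comp ρ χ _ (fun c => by
      have h2 := comp_mem (L := L) ρ χ τ hgen hw j h hneat ω halt hnd hωρ hss' γ hχ hγ hun hroots
        hfγ (component_eqv hg c) l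
      exact h2))
    refine Submodule.span_mono ?_ h1
    rintro x ⟨y, ⟨B, hB, hy⟩, w, hw, hx⟩
    refine ⟨B, w, hB, hw, fun v => ?_⟩
    rw [hx, hy]
  · intro n m g hg
    ext v
    have h1 : v = fun l => ∑ i, Pi.single i (v l i) := by
      funext l
      exact (Finset.univ_sum_single (v l)).symm
    have h2 : g v = ∑ c : Fin (2 * m + 1) → Fin n,
        g.toMultilinearMap.compLinearMap
          (fun l => LinearMap.single k (fun _ : Fin n => V) (c l)) (fun l => v l (c l)) := by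
      conv_lhs => rw [h1]
      exact g.toMultilinearMap.map_sum (fun l i => Pi.single i (v l i))
    rw [h2]
    refine Finset.sum_eq_zero fun c _ => ?_
    have h3 := odd_zero (L := L) ρ χ τ hgen hw j h hneat ω halt hnd hωρ γ hχ hγ hun hroots
        hfγ (κ := Fin (2 * m + 1)) (by
          rw [Fintype.card_fin]
          exact ⟨m, rfl⟩) (component_eqv hg c)
    rw [h3]
    rfl

end

end Pool.Agent.Y137.MV
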